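import Pool.Agent.Q231.Smo.Defs

namespace Q231.Smo

variable {n : ℕ}

namespace Tree

theorem size_eq (t : Tree n) : t.size = t.leaves.length := by
  induction t with
  | leaf x => rfl
  | node l r hl hr => simp [size, leaves, hl, hr]

theorem size_pos (t : Tree n) : 0 < t.size := Nat.pos_of_ne_zero (NeZero.ne _)
theorem nodes_pos (t : Tree n) : 0 < t.nodes := Nat.pos_of_ne_zero (NeZero.ne _)

theorem ins_leaves (t : Tree n) (v : ℕ) (hv : v < t.nodes) (x : Lit n) (b : Bool) :
    ∃ L1 L2, t.leaves = L1 ++ L2 ∧ (t.ins v x b).leaves = L1 ++ x :: L2 := by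
  induction t generalizing v with
  | leaf y =>
    have : v = 0 := by simp [nodes] at hv; omega
    subst this
    cases b
    · exact ⟨[], [y], rfl, by simp [ins, leaves]⟩
    · exact ⟨[y], [], by simp [leaves], by simp [ins, leaves]⟩
  | node l r hl hr =>
    cases v with
    | zero =>
      cases b
      · exact ⟨[], l.leaves ++ r.leaves, by simp [leaves], by simp [ins, leaves]⟩
      · exact ⟨l.leaves ++ r.leaves, [], by simp [leaves], by simp [ins, leaves]⟩
    | succ v =>
      by_cases h : v < l.nodes
      · obtain ⟨L1, L2, h1, h2⟩ := hl v h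
        refine ⟨L1, L2 ++ r.leaves, ?_, ?_⟩
        · simp [leaves, h1]
        · simp [ins, h, leaves, h2]
      · have h' : v - l.nodes < r.nodes := by simp [nodes] at hv; omega
        obtain ⟨L1, L2, h1, h2⟩ := hr _ h'
        refine ⟨l.leaves ++ L1, L2, ?_, ?_⟩
        · simp [leaves, h1]
        · simp [ins, h, leaves, h2]

theorem del_leaves (t : Tree n) (v : ℕ) (hv : v < t.size) :
    Smo.leaves (t.del v) = t.leaves.eraseIdx v := by
  induction t generalizing v with
  | leaf y =>
    have : v = 0 := by simp [size] at hv; omega
    subst this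
    simp [del, Smo.leaves, leaves]
  | node l r hl hr =>
    by_cases h : v < l.size
    · have e := hl v h
      have h2 : v < l.leaves.length := by rw [← size_eq]; exact h
      simp only [del, h, if_true, leaves]
      rw [List.eraseIdx_append_of_lt_length h2, ← e]
      cases l.del v with
      | none => simp [Smo.leaves]
      | some l' => simp [Smo.leaves, leaves]
    · have h' : v - l.size < r.size := by simp [size] at hv; omega
      have e := hr _ h'
      have h2 : l.leaves.length ≤ v := by rw [← size_eq]; omega
      simp only [del, h, if_false, leaves]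
      rw [List.eraseIdx_append_of_length_le h2, ← size_eq, ← e]
      cases r.del (v - l.size) with
      | none => simp [Smo.leaves]
      | some l' => simp [Smo.leaves, leaves]

theorem sub_size (t : Tree n) (v : ℕ) (x : Lit n) : (t.sub v x).size = t.size := by
  induction t generalizing v with
  | leaf y => rfl
  | node l r hl hr =>
    cases v with
    | zero => rfl
    | succ v =>
      by_cases h : v < l.nodes
      · simp [sub, h, size, hl]
      · simp [sub, h, size, hr]

end Tree

theorem size_eq (X : Ind n) : size X = (leaves X).length := by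
  cases X with
  | none => rfl
  | some t => exact t.size_eq

/-- fitness of a list of leaves -/
def fitL (L : List (Lit n)) : ℕ := (Finset.univ.filter (fun i => Expressed L i)).card

theorem fit_eq (X : Ind n) : fit X = fitL (leaves X) := rfl

theorem fitL_le_n (L : List (Lit n)) : fitL L ≤ n := by
  have := Finset.card_filter_le (Finset.univ : Finset (Fin n)) (fun i => Expressed L i)
  simpa [fitL] using this

theorem expressed_mem {L : List (Lit n)} {i : Fin n} (h : Expressed L i) : (i, true) ∈ L :=
  List.mem_of_find?_eq_some h

theorem fitL_le_length (L : List (Lit n)) : fitL L ≤ L.length := by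
  classical
  have h1 : (Finset.univ.filter (fun i => Expressed L i)) ⊆ (L.map Prod.fst).toFinset := by
    intro i hi
    simp only [Finset.mem_filter, Finset.mem_univ, true_and] at hi
    rw [List.mem_toFinset, List.mem_map]
    exact ⟨_, expressed_mem hi, rfl⟩
  calc fitL L ≤ (L.map Prod.fst).toFinset.card := Finset.card_le_card h1
    _ ≤ (L.map Prod.fst).length := List.toFinset_card_le _
    _ = L.length := by simp

theorem expressed_insert_ne (L1 L2 : List (Lit n)) (x : Lit n) (i : Fin n) (h : x.1 ≠ i) :
    Expressed (L1 ++ x :: L2) i ↔ Expressed (L1 ++ L2) i := by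
  unfold Expressed
  simp [List.find?_append, h]

theorem fitL_insert_le (L1 L2 : List (Lit n)) (x : Lit n) :
    fitL (L1 ++ x :: L2) ≤ fitL (L1 ++ L2) + 1 := by
  classical
  have h1 : (Finset.univ.filter (fun i => Expressed (L1 ++ x :: L2) i)) ⊆
      insert x.1 (Finset.univ.filter (fun i => Expressed (L1 ++ L2) i)) := by
    intro i hi
    simp only [Finset.mem_filter, Finset.mem_univ, true_and, Finset.mem_insert] at hi ⊢
    by_cases h : x.1 = i
    · left; exact h.symm
    · right; exact (expressed_insert_ne L1 L2 x i h).1 hi
  exact (Finset.card_le_card h1).trans (Finset.card_insert_le _ _)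

theorem fitL_remove_le (L1 L2 : List (Lit n)) (x : Lit n) :
    fitL (L1 ++ L2) ≤ fitL (L1 ++ x :: L2) + 1 := by
  classical
  have h1 : (Finset.univ.filter (fun i => Expressed (L1 ++ L2) i)) ⊆
      insert x.1 (Finset.univ.filter (fun i => Expressed (L1 ++ x :: L2) i)) := by
    intro i hi
    simp only [Finset.mem_filter, Finset.mem_univ, true_and, Finset.mem_insert] at hi ⊢
    by_cases h : x.1 = i
    · left; exact h.symm
    · right; exact (expressed_insert_ne L1 L2 x i h).2 hi
  exact (Finset.card_le_card h1).trans (Finset.card_insert_le _ _)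

/-- if removing `x` decreases the fitness then `x` is the first occurrence of its variable -/
theorem first_of_remove_lt (L1 L2 : List (Lit n)) (x : Lit n)
    (h : fitL (L1 ++ L2) < fitL (L1 ++ x :: L2)) : ∀ y ∈ L1, y.1 ≠ x.1 := by
  classical
  intro y hy hyx
  have hsome : ∃ z, L1.find? (fun a => a.1 = x.1) = some z := by
    rw [← Option.isSome_iff_exists, List.find?_isSome]
    exact ⟨y, hy, by simpa using hyx⟩
  obtain ⟨z, hz⟩ := hsome
  have hall : ∀ i, Expressed (L1 ++ x :: L2) i ↔ Expressed (L1 ++ L2) i := by
    intro i
    by_cases hi : x.1 = i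
    · subst hi
      unfold Expressed
      rw [List.find?_append, List.find?_append, hz]
      simp
    · exact expressed_insert_ne L1 L2 x i hi
  have : fitL (L1 ++ x :: L2) = fitL (L1 ++ L2) := by
    unfold fitL
    congr 1
    ext i
    simp [hall i]
  omega

theorem split_at (L : List (Lit n)) (v : ℕ) (hv : v < L.length) :
    L = L.take v ++ L[v] :: L.drop (v + 1) := by
  rw [← List.drop_eq_getElem_cons hv, List.take_append_drop]

theorem fitL_erase_le (L : List (Lit n)) (v : ℕ) (hv : v < L.length) :
    fitL (L.eraseIdx v) ≤ fitL L + 1 := by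
  have h := fitL_remove_le (L.take v) (L.drop (v + 1)) L[v]
  rw [← split_at L v hv, ← List.eraseIdx_eq_take_drop_succ] at h
  exact h

theorem crit_card (L : List (Lit n)) :
    (Finset.univ.filter (fun v : Fin L.length => fitL (L.eraseIdx v) < fitL L)).card ≤ n := by
  classical
  have hinj : Set.InjOn (fun v : Fin L.length => (L[v]).1)
      (Finset.univ.filter (fun v : Fin L.length => fitL (L.eraseIdx v) < fitL L) : Finset _) := by
    have key : ∀ v w : Fin L.length, v < w → fitL (L.eraseIdx w) < fitL L →
        (L[v]).1 ≠ (L[w]).1 := by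
      intro v w hvw hw
      have h := first_of_remove_lt (L.take w) (L.drop (w + 1)) L[(w : ℕ)]
        (by rw [← split_at L w w.2, ← List.eraseIdx_eq_take_drop_succ]; exact hw)
      apply h
      rw [List.mem_take_iff_getElem]
      exact ⟨v, by have := v.2; have : (v : ℕ) < w := hvw; omega, rfl⟩
    intro v hv w hw hvw
    simp only [Finset.coe_filter, Finset.mem_univ, true_and, Set.mem_ofPred_eq] at hv hw
    rcases lt_trichotomy v w with h | h | h
    · exact absurd hvw (key v w h hw)
    · exact h
    · exact absurd hvw.symm (key w v h hv)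
  have := Finset.card_le_card_of_injOn (t := (Finset.univ : Finset (Fin n)))
    (fun v : Fin L.length => (L[v]).1) (fun _ _ => Finset.mem_univ _) hinj
  simpa using this

/-- a missing variable gives an improving insertion -/
theorem exists_missing (L : List (Lit n)) (h : L.length < n) : ∃ i : Fin n, ∀ y ∈ L, y.1 ≠ i := by
  classical
  by_contra hc
  push Not at hc
  have h1 : (Finset.univ : Finset (Fin n)) ⊆ (L.map Prod.fst).toFinset := by
    intro i _
    obtain ⟨y, hy, hyi⟩ := hc i
    rw [List.mem_toFinset, List.mem_map]
    exact ⟨y, hy, hyi⟩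
  have h2 := Finset.card_le_card h1
  have h3 := List.toFinset_card_le (L.map Prod.fst)
  simp only [Finset.card_univ, Fintype.card_fin, List.length_map] at h2 h3
  omega

theorem fitL_insert_missing (L1 L2 : List (Lit n)) (i : Fin n) (h : ∀ y ∈ L1 ++ L2, y.1 ≠ i) :
    fitL (L1 ++ (i, true) :: L2) = fitL (L1 ++ L2) + 1 := by
  classical
  have hi : ¬ Expressed (L1 ++ L2) i := fun hc => h _ (expressed_mem hc) rfl
  have hi2 : Expressed (L1 ++ (i, true) :: L2) i := by
    unfold Expressed
    rw [List.find?_append]
    have : L1.find? (fun x => x.1 = i) = none := by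
      rw [List.find?_eq_none]
      intro x hx
      simpa using h x (List.mem_append_left _ hx)
    rw [this]
    simp
  have hset : (Finset.univ.filter (fun j => Expressed (L1 ++ (i, true) :: L2) j)) =
      insert i (Finset.univ.filter (fun j => Expressed (L1 ++ L2) j)) := by
    ext j
    simp only [Finset.mem_filter, Finset.mem_univ, true_and, Finset.mem_insert]
    by_cases hj : i = j
    · subst hj; simp [hi2]
    · rw [expressed_insert_ne L1 L2 (i, true) j hj]
      constructor
      · intro hh; right; exact hh
      · rintro (hh | hh)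
        · exact absurd hh.symm hj
        · exact hh
  unfold fitL
  rw [hset, Finset.card_insert_of_notMem (by simpa using hi)]

/-! ### consequences for individuals -/

theorem fit_le_n (X : Ind n) : fit X ≤ n := fitL_le_n _
theorem fit_le_size (X : Ind n) : fit X ≤ size X := by rw [size_eq]; exact fitL_le_length _

theorem ins_size (t : Tree n) (v : ℕ) (hv : v < t.nodes) (x : Lit n) (b : Bool) :
    size (some (t.ins v x b)) = t.size + 1 := by
  obtain ⟨L1, L2, h1, h2⟩ := t.ins_leaves v hv x b
  rw [size_eq, t.size_eq, h1]
  show (t.ins v x b).leaves.length = _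
  rw [h2]; simp; omega

theorem ins_fit (t : Tree n) (v : ℕ) (hv : v < t.nodes) (x : Lit n) (b : Bool) :
    fit (some (t.ins v x b)) ≤ fit (some t) + 1 := by
  obtain ⟨L1, L2, h1, h2⟩ := t.ins_leaves v hv x b
  show fitL (t.ins v x b).leaves ≤ fitL t.leaves + 1
  rw [h1, h2]
  exact fitL_insert_le _ _ _

theorem del_size (t : Tree n) (v : ℕ) (hv : v < t.size) : size (t.del v) + 1 = t.size := by
  rw [size_eq, t.del_leaves v hv, t.size_eq]
  have : v < t.leaves.length := by rw [← t.size_eq]; exact hv
  rw [List.length_eraseIdx]
  simp [this]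
  omega

theorem del_fit (t : Tree n) (v : ℕ) (hv : v < t.size) : fit (t.del v) ≤ fit (some t) + 1 := by
  rw [fit_eq, t.del_leaves v hv]
  exact fitL_erase_le _ _ (by rw [← t.size_eq]; exact hv)

theorem del_crit (t : Tree n) :
    (Finset.univ.filter (fun v : Fin t.size => fit (t.del v) < fit (some t))).card ≤ n := by
  have h := crit_card t.leaves
  refine le_trans (le_of_eq ?_) h
  apply Finset.card_bij (fun v _ => Fin.cast t.size_eq v)
  · intro v hv
    simp only [Finset.mem_filter, Finset.mem_univ, true_and] at hv ⊢
    rw [fit_eq, t.del_leaves v v.2] at hv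
    exact hv
  · intro v _ w _ hvw
    simpa using hvw
  · intro v hv
    refine ⟨Fin.cast t.size_eq.symm v, ?_, by simp⟩
    simp only [Finset.mem_filter, Finset.mem_univ, true_and] at hv ⊢
    rw [fit_eq, t.del_leaves _ (Fin.cast t.size_eq.symm v).2]
    exact hv

end Q231.Smo
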