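import Mathlib

/-!
# SMO-GP on ORDER

Definitions: literals, binary trees, fitness ORDER, one application of HVL-Prime, the
multi-objective algorithm SMO-GP with one application per iteration, its optimization time.
-/

namespace Q231.Smo

open scoped ENNReal

/-- Literals over `n` variables: `(i, true)` is the variable number `i`, `(i, false)` its negation. -/
abbrev Lit (n : ℕ) := Fin n × Bool

/-- Nonempty binary trees: leaves carry literals, every inner node is the binary function `J`. -/
inductive Tree (n : ℕ) where
  | leaf (x : Lit n) : Tree n
  | node (l r : Tree n) : Tree n
  deriving DecidableEq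

variable {n : ℕ}

namespace Tree

/-- The leaves from left to right (in-order). -/
def leaves : Tree n → List (Lit n)
  | leaf x => [x]
  | node l r => l.leaves ++ r.leaves

/-- The number of leaves. -/
def size : Tree n → ℕ
  | leaf _ => 1
  | node l r => l.size + r.size

/-- The number of nodes (leaves and inner nodes). -/
def nodes : Tree n → ℕ
  | leaf _ => 1
  | node l r => 1 + l.nodes + r.nodes

instance (t : Tree n) : NeZero t.size := ⟨by
  induction t with
  | leaf => simp [size]
  | node l r hl hr => simp [size]; omega⟩

instance (t : Tree n) : NeZero t.nodes := ⟨by cases t <;> simp [nodes]⟩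

/-- Insertion at node number `v` (nodes are numbered `0, 1, ...` in pre-order): the node is
replaced by a new `J` whose children are the old node and the new leaf `x`, in the order given by
`b`. -/
def ins : Tree n → ℕ → Lit n → Bool → Tree n
  | t, 0, x, true => node t (leaf x)
  | t, 0, x, false => node (leaf x) t
  | leaf y, _ + 1, _, _ => leaf y
  | node l r, v + 1, x, b =>
      if v < l.nodes then node (l.ins v x b) r else node l (r.ins (v - l.nodes) x b)

/-- Deletion of leaf number `v` (leaves are numbered `0, 1, ...` from left to right): its parent is
replaced by its sibling; deleting a lone leaf gives the empty tree `none`. -/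
def del : Tree n → ℕ → Option (Tree n)
  | leaf _, _ => none
  | node l r, v =>
      if v < l.size then
        match l.del v with
        | none => some r
        | some l' => some (node l' r)
      else
        match r.del (v - l.size) with
        | none => some l
        | some r' => some (node l r')

/-- Substitution at node number `v` (pre-order): a leaf is replaced by the leaf `x`, an inner node
stays `J`. -/
def sub : Tree n → ℕ → Lit n → Tree n
  | leaf _, _, x => leaf x
  | node l r, 0, _ => node l r
  | node l r, v + 1, x =>
      if v < l.nodes then node (l.sub v x) r else node l (r.sub (v - l.nodes) x)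

end Tree

/-- Individuals: `none` is the empty tree. -/
abbrev Ind (n : ℕ) := Option (Tree n)

/-- The leaves of an individual from left to right. -/
def leaves : Ind n → List (Lit n)
  | none => []
  | some t => t.leaves

/-- The size of an individual: its number of leaves. -/
def size : Ind n → ℕ
  | none => 0
  | some t => t.size

/-- Variable `i` is expressed: it occurs, and its first occurrence is positive. -/
def Expressed (L : List (Lit n)) (i : Fin n) : Prop :=
  L.find? (fun x => x.1 = i) = some (i, true)

instance (L : List (Lit n)) (i : Fin n) : Decidable (Expressed L i) := by
  unfold Expressed; infer_instance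

/-- ORDER: the number of expressed variables. -/
def fit (X : Ind n) : ℕ := (Finset.univ.filter (fun i => Expressed (leaves X) i)).card

/-- `X` weakly dominates `Y`. -/
def WeakDom (X Y : Ind n) : Prop := fit Y ≤ fit X ∧ size X ≤ size Y

/-- `X` strictly dominates `Y`. -/
def StrictDom (X Y : Ind n) : Prop := WeakDom X Y ∧ (fit Y < fit X ∨ size X < size Y)

instance (X Y : Ind n) : Decidable (WeakDom X Y) := by unfold WeakDom; infer_instance
instance (X Y : Ind n) : Decidable (StrictDom X Y) := by unfold StrictDom; infer_instance

/-- The three kinds of mutation. -/
inductive Op where
  | INS | DEL | SUB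
  deriving DecidableEq

instance : Fintype Op := ⟨{Op.INS, Op.DEL, Op.SUB}, fun x => by cases x <;> simp⟩

instance : Nonempty Op := ⟨Op.INS⟩

/-- One application of HVL-Prime. -/
noncomputable def hvl [NeZero n] : Ind n → PMF (Ind n)
  | none => (PMF.uniformOfFintype (Lit n)).map fun x : Lit n => some (Tree.leaf x)
  | some t => (PMF.uniformOfFintype Op).bind fun op => match op with
      | Op.INS => (PMF.uniformOfFintype (Fin t.nodes × Lit n × Bool)).map
          fun c : Fin t.nodes × Lit n × Bool => some (t.ins c.1 c.2.1 c.2.2)
      | Op.DEL => (PMF.uniformOfFintype (Fin t.size)).map fun v : Fin t.size => t.del v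
      | Op.SUB => (PMF.uniformOfFintype (Fin t.nodes × Lit n)).map
          fun c : Fin t.nodes × Lit n => some (t.sub c.1 c.2)

/-- The population after the offspring `Y` has been offered: `Y` enters unless some member
strictly dominates it, and then the members which it weakly dominates are removed. -/
def update (P : Finset (Ind n)) (Y : Ind n) : Finset (Ind n) :=
  if ∃ X ∈ P, StrictDom X Y then P else insert Y (P.filter fun X => ¬ WeakDom Y X)

/-- One iteration of SMO-GP (with `k = 1`): the parent is uniform in the population, the offspring
is obtained by one application of HVL-Prime. (The population is never empty.) -/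
noncomputable def step [NeZero n] (P : Finset (Ind n)) : PMF (Finset (Ind n)) :=
  if h : P.Nonempty then
    (PMF.uniformOfFinset P h).bind fun X => (hvl X).map fun Y => update P Y
  else PMF.pure P

/-- Pareto-optimal trees. -/
def Pareto (X : Ind n) : Prop := ∀ Y : Ind n, ¬ StrictDom Y X

/-- The population contains, for every Pareto-optimal objective vector, a tree attaining it. -/
def Complete (P : Finset (Ind n)) : Prop :=
  ∀ X : Ind n, Pareto X → ∃ Y ∈ P, fit Y = fit X ∧ size Y = size X

open Classical in
/-- The probability that SMO-GP, started with population `P`, has no complete population at any of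
the times `0, 1, ..., t`. -/
noncomputable def pending [NeZero n] : ℕ → Finset (Ind n) → ℝ≥0∞
  | 0, P => if Complete P then 0 else 1
  | t + 1, P => if Complete P then 0 else ∑' Q, step P Q * pending t Q

/-- The expected optimization time `E[τ] = ∑ Pr[τ > t]` from the initial tree `X`. -/
noncomputable def expectedTime [NeZero n] (X : Ind n) : ℝ≥0∞ := ∑' t, pending t {X}

end Q231.Smo
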