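import Pool.Agent.Q231.Smo.Drift2

namespace Q231.Smo

open scoped ENNReal

set_option linter.unusedSectionVars false

/-- the potential of the critical random walk with clock `N` -/
noncomputable def hh (K D N : ℕ) : ℝ :=
  (min D K : ℕ) * (2 * K - (min D K : ℕ)) + (min D K : ℕ) / K * N

section
variable {K : ℕ}

theorem hh_nonneg (D N : ℕ) : 0 ≤ hh K D N := by
  have h : ((min D K : ℕ) : ℝ) ≤ K := by exact_mod_cast min_le_right _ _
  have hK : (0 : ℝ) ≤ K := by positivity
  unfold hh
  have h1 : (0 : ℝ) ≤ 2 * K - (min D K : ℕ) := by linarith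
  positivity

theorem hh_mono {D D' N N' : ℕ} (hD : D ≤ D') (hN : N ≤ N') : hh K D N ≤ hh K D' N' := by
  have h1 : ((min D K : ℕ) : ℝ) ≤ (min D' K : ℕ) := by exact_mod_cast min_le_min hD le_rfl
  have h2 : ((min D' K : ℕ) : ℝ) ≤ K := by exact_mod_cast min_le_right _ _
  have h3 : (N : ℝ) ≤ N' := by exact_mod_cast hN
  have h0 : (0 : ℝ) ≤ (min D K : ℕ) := by positivity
  unfold hh
  have h4 : ((min D K : ℕ) : ℝ) / K * N ≤ (min D' K : ℕ) / K * N' := by gcongr
  nlinarith [mul_nonneg (sub_nonneg.2 h1) (sub_nonneg.2 h2),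
    mul_nonneg (sub_nonneg.2 h1) (sub_nonneg.2 (h1.trans h2))]

theorem hh_drift (hK : 1 ≤ K) (d m : ℕ) :
    hh K (d + 2) m + hh K d m ≤ 2 * hh K (d + 1) (m + 1) - 2 := by
  have hK' : (1 : ℝ) ≤ K := by exact_mod_cast hK
  have hK0 : (0 : ℝ) < K := by linarith
  have hm : (0 : ℝ) ≤ m := by positivity
  rcases le_or_gt (d + 2) K with h | h
  · unfold hh
    rw [min_eq_left h, min_eq_left (show d ≤ K by omega), min_eq_left (show d + 1 ≤ K by omega)]
    push_cast
    have : ((d : ℝ) + 2) / K * m + d / K * m ≤ 2 * ((d + 1) / K * (m + 1)) := by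
      have e1 : ((d : ℝ) + 2) / K * m + d / K * m = 2 * ((d + 1) / K * m) := by ring
      rw [e1]
      have : ((d : ℝ) + 1) / K * m ≤ (d + 1) / K * (m + 1) := by gcongr; linarith
      linarith
    nlinarith
  · rcases Nat.lt_or_ge d K with h' | h'
    · have hd : K = d + 1 := by omega
      unfold hh
      rw [min_eq_right (show K ≤ d + 2 by omega), min_eq_left (show d ≤ K by omega),
        min_eq_right (show K ≤ d + 1 by omega)]
      have hdr : (d : ℝ) = K - 1 := by rw [hd]; push_cast; ring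
      rw [hdr]
      push_cast
      have e1 : (K : ℝ) / K = 1 := div_self hK0.ne'
      rw [e1]
      have : ((K : ℝ) - 1) / K * m ≤ 1 * m := by
        apply mul_le_mul_of_nonneg_right _ hm
        rw [div_le_one hK0]; linarith
      nlinarith
    · unfold hh
      rw [min_eq_right (show K ≤ d + 2 by omega), min_eq_right (show K ≤ d by omega),
        min_eq_right (show K ≤ d + 1 by omega)]
      push_cast
      have e1 : (K : ℝ) / K = 1 := div_self hK0.ne'
      rw [e1]
      nlinarith

theorem hh_step_le (hK : 1 ≤ K) (d m : ℕ) (hm : m + 1 ≤ K * K) :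
    hh K (d + 1) (m + 1) ≤ hh K d m + 4 * K := by
  have hK' : (1 : ℝ) ≤ K := by exact_mod_cast hK
  have hK0 : (0 : ℝ) < K := by linarith
  have hm' : (m : ℝ) + 1 ≤ K * K := by exact_mod_cast hm
  rcases le_or_gt (d + 1) K with h | h
  · have hd : (d : ℝ) + 1 ≤ K := by exact_mod_cast h
    unfold hh
    rw [min_eq_left h, min_eq_left (show d ≤ K by omega)]
    push_cast
    have e1 : ((d : ℝ) + 1) / K * (m + 1) = d / K * m + (m + 1 + d) / K := by ring
    rw [e1]
    have e2 : ((m : ℝ) + 1 + d) / K ≤ K + 1 := by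
      rw [div_le_iff₀ hK0]; nlinarith
    nlinarith
  · unfold hh
    rw [min_eq_right (show K ≤ d + 1 by omega), min_eq_right (show K ≤ d by omega)]
    push_cast
    have e1 : (K : ℝ) / K = 1 := div_self hK0.ne'
    rw [e1]
    nlinarith

theorem hh_one (hK : 1 ≤ K) (m : ℕ) (hm : m ≤ K * K) : hh K 1 m ≤ 3 * K := by
  have hK' : (1 : ℝ) ≤ K := by exact_mod_cast hK
  have hK0 : (0 : ℝ) < K := by linarith
  have hm' : (m : ℝ) ≤ K * K := by exact_mod_cast hm
  unfold hh
  rw [min_eq_left hK]
  push_cast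
  have e2 : (1 : ℝ) / K * m ≤ K := by
    rw [one_div, inv_mul_le_iff₀ hK0]; linarith
  linarith

theorem hh_zero (N : ℕ) : hh K 0 N = 0 := by
  unfold hh; simp

theorem hh_clock (hK : 1 ≤ K) (d m : ℕ) : hh K d (m + 1) ≤ hh K d m + 1 := by
  have hK' : (1 : ℝ) ≤ K := by exact_mod_cast hK
  have hK0 : (0 : ℝ) < K := by linarith
  have h2 : ((min d K : ℕ) : ℝ) ≤ K := by exact_mod_cast min_le_right _ _
  unfold hh
  push_cast
  have : ((min d K : ℕ) : ℝ) / K ≤ 1 := by rw [div_le_one hK0]; exact h2
  push_cast at this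
  nlinarith

theorem hh_up (hK : 1 ≤ K) (D N : ℕ) (hN : N + 1 ≤ K * K) :
    hh K (D + 2) (N + 1) ≤ hh K D N + 9 * K := by
  have hK' : (1 : ℝ) ≤ K := by exact_mod_cast hK
  have hK0 : (0 : ℝ) < K := by linarith
  have hN' : (N : ℝ) + 1 ≤ K * K := by exact_mod_cast hN
  have h1 : ((min D K : ℕ) : ℝ) ≤ (min (D + 2) K : ℕ) := by
    exact_mod_cast min_le_min (by omega) le_rfl
  have h2 : ((min (D + 2) K : ℕ) : ℝ) ≤ (min D K : ℕ) + 2 := by
    have : min (D + 2) K ≤ min D K + 2 := by omega
    exact_mod_cast this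
  have h3 : ((min (D + 2) K : ℕ) : ℝ) ≤ K := by exact_mod_cast min_le_right _ _
  have h0 : (0 : ℝ) ≤ (min D K : ℕ) := by positivity
  unfold hh
  set x : ℝ := ((min D K : ℕ) : ℝ) with hx
  set y : ℝ := ((min (D + 2) K : ℕ) : ℝ) with hy
  have e1 : y / K * ((N + 1 : ℕ) : ℝ) = x / K * N + ((y - x) * (N + 1) + x) / K := by
    push_cast; ring
  rw [e1]
  have e2 : ((y - x) * (N + 1) + x) / K ≤ 2 * K + 1 := by
    rw [div_le_iff₀ hK0]
    nlinarith [mul_nonneg (sub_nonneg.2 h1) (by positivity : (0:ℝ) ≤ (N:ℝ) + 1)]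
  have e3 : y * (2 * K - y) - x * (2 * K - x) ≤ 4 * K := by
    nlinarith [mul_nonneg (sub_nonneg.2 h1) hK0.le, mul_nonneg (sub_nonneg.2 h1) h0,
      mul_nonneg (sub_nonneg.2 h1) (h0.trans h1)]
  linarith

end

variable {n : ℕ} [NeZero n]

/-- weight of the excursion part -/
noncomputable def ww (n : ℕ) : ℝ := 3 * (n + 1)

/-- bonus per fitness level -/
noncomputable def bb (n K : ℕ) : ℝ := 13 * K * ww n + 6

/-- the potential of the first phase as a function of smallest size, size of the fittest member,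
and largest fitness -/
noncomputable def phi (n K a b F : ℕ) : ℝ :=
  6 * a + ww n * hh K (b - a) (a + b) + bb n K * (n - F)

theorem ww_pos : 0 < ww n := by unfold ww; positivity
theorem bb_pos (K : ℕ) : 0 < bb n K := by
  have := ww_pos (n := n)
  unfold bb; positivity

theorem phi_nonneg (K a b F : ℕ) (hF : F ≤ n) : 0 ≤ phi n K a b F := by
  have h1 := ww_pos (n := n)
  have h2 := bb_pos (n := n) K
  have h3 := hh_nonneg (K := K) (b - a) (a + b)
  have h4 : (0 : ℝ) ≤ n - F := by
    have : (F : ℝ) ≤ n := by exact_mod_cast hF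
    linarith
  unfold phi
  positivity

/-- potential of a population -/
noncomputable def pot (K : ℕ) (P : Finset (Ind n)) : ℝ := phi n K (lo P) (hi P) (top P)

theorem pot_nonneg (K : ℕ) (P : Finset (Ind n)) : 0 ≤ pot K P := phi_nonneg _ _ _ _ (top_le_n P)

theorem phi_mono_b {K a b b' F : ℕ} (h : b ≤ b') : phi n K a b F ≤ phi n K a b' F := by
  unfold phi
  have := hh_mono (K := K) (show b - a ≤ b' - a by omega) (show a + b ≤ a + b' by omega)
  have h1 := ww_pos (n := n)
  nlinarith

/-- if the largest fitness increases then the potential drops a lot -/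
theorem pot_jump {K : ℕ} (hK : 1 ≤ K) {P : Finset (Ind n)} (hP : Inv P)
    (hN : lo P + hi P + 2 ≤ K * K) (Y : Ind n)
    (h1 : size Y ≤ hi P + 1) (h2 : lo P ≤ size Y + 1) (hne : top (update P Y) ≠ top P) :
    pot K (update P Y) ≤ pot K P - 4 * K * ww n - 6 := by
  obtain ⟨h3, h4, h5⟩ := fit_of_top_ne hP Y hne
  have h6 := lo_update_le hP.ne Y
  have h7 : lo P - 1 ≤ lo (update P Y) := le_lo_update hP Y _ (by omega) (by omega)
  have h8 := hP.lo_le_hi
  have h9 : hh K (hi (update P Y) - lo (update P Y)) (lo (update P Y) + hi (update P Y)) ≤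
      hh K (hi P - lo P) (lo P + hi P) + 9 * K := by
    refine (hh_mono ?_ ?_).trans (hh_up hK (hi P - lo P) (lo P + hi P) (by omega))
    · omega
    · omega
  have h10 : (lo (update P Y) : ℝ) ≤ lo P := by exact_mod_cast h6
  have h11 : (top P : ℝ) + 1 ≤ top (update P Y) := by rw [h4]; exact_mod_cast h3
  have hw := ww_pos (n := n)
  have hb := bb_pos (n := n) K
  unfold pot phi
  have h12 : ww n * hh K (hi (update P Y) - lo (update P Y)) (lo (update P Y) + hi (update P Y)) ≤
      ww n * (hh K (hi P - lo P) (lo P + hi P) + 9 * K) := mul_le_mul_of_nonneg_left h9 hw.le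
  have h13 : bb n K * (n - top (update P Y)) ≤ bb n K * (n - (top P + 1)) :=
    mul_le_mul_of_nonneg_left (by linarith) hb.le
  have h14 : bb n K * (n - (top P + 1)) = bb n K * (n - top P) - (13 * K * ww n + 6) := by
    unfold bb; ring
  nlinarith

/-- any offspring that is not smaller than all members -/
theorem pot_same {K : ℕ} (hK : 1 ≤ K) {P : Finset (Ind n)} (hP : Inv P)
    (hN : lo P + hi P + 2 ≤ K * K) (Y : Ind n)
    (h1 : size Y ≤ hi P + 1) (h2 : lo P ≤ size Y) :
    pot K (update P Y) ≤ pot K P := by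
  by_cases hne : top (update P Y) = top P
  · have h3 := lo_update_same hP Y h2
    have h4 := hi_update_le hP.ne Y hne
    unfold pot
    rw [h3, hne]
    exact phi_mono_b h4
  · have h3 := pot_jump hK hP hN Y h1 (by omega) hne
    have hw := ww_pos (n := n)
    have : (0 : ℝ) ≤ 4 * K * ww n := by positivity
    linarith

/-- deletion in the smallest member -/
theorem pot_lo {K : ℕ} (hK : 1 ≤ K) {P : Finset (Ind n)} (hP : Inv P)
    (hN : lo P + hi P + 2 ≤ K * K) (Y : Ind n) (h2 : size Y + 1 = lo P) :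
    pot K (update P Y) ≤ phi n K (lo P - 1) (hi P) (top P) := by
  have h8 := hP.lo_le_hi
  by_cases hne : top (update P Y) = top P
  · have h3 := lo_update_lt hP Y (by omega)
    have h4 := hi_update_le hP.ne Y hne
    unfold pot
    rw [h3, hne, ← h2, Nat.add_sub_cancel]
    exact phi_mono_b h4
  · have h3 := pot_jump hK hP hN Y (by omega) (by omega) hne
    refine h3.trans ?_
    have hw := ww_pos (n := n)
    have hK' : (1 : ℝ) ≤ K := by exact_mod_cast hK
    unfold pot phi
    have h4 : hh K (hi P - lo P) (lo P + hi P) ≤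
        hh K (hi P - (lo P - 1)) (lo P - 1 + hi P) + 1 := by
      have e : lo P + hi P = (lo P - 1 + hi P) + 1 := by omega
      rw [e]
      refine (hh_clock hK _ _).trans ?_
      have := hh_mono (K := K) (show hi P - lo P ≤ hi P - (lo P - 1) by omega)
        (le_refl (lo P - 1 + hi P))
      linarith
    have h5 : ((lo P - 1 : ℕ) : ℝ) = lo P - 1 := by
      rw [Nat.cast_sub (by omega)]; simp
    rw [h5]
    have h6 := mul_le_mul_of_nonneg_left h4 hw.le
    nlinarith [mul_nonneg (sub_nonneg.2 hK') hw.le]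

/-- a deletion in the fittest member which does not decrease the fitness; several members -/
theorem pot_hi {K : ℕ} (hK : 1 ≤ K) {P : Finset (Ind n)} (hP : Inv P)
    (hN : lo P + hi P + 2 ≤ K * K) (hlt : lo P < hi P) (Y : Ind n)
    (h2 : size Y + 1 = hi P) (hf : top P ≤ fit Y) :
    pot K (update P Y) ≤ phi n K (lo P) (hi P - 1) (top P) := by
  by_cases hne : top (update P Y) = top P
  · have h3 := lo_update_same hP Y (by omega)
    have h4 := hi_update_top hP Y hf (by omega)
    unfold pot
    rw [h3, hne, h4, ← h2, Nat.add_sub_cancel]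
  · have h3 := pot_jump hK hP hN Y (by omega) (by omega) hne
    refine h3.trans ?_
    have hw := ww_pos (n := n)
    unfold pot phi
    have h4 : hh K (hi P - lo P) (lo P + hi P) ≤
        hh K (hi P - 1 - lo P) (lo P + (hi P - 1)) + 4 * K := by
      have e1 : hi P - lo P = (hi P - 1 - lo P) + 1 := by omega
      have e2 : lo P + hi P = (lo P + (hi P - 1)) + 1 := by omega
      rw [e1, e2]
      exact hh_step_le hK _ _ (by omega)
    have h6 := mul_le_mul_of_nonneg_left h4 hw.le
    nlinarith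

/-- a deletion which does not decrease the fitness; one member -/
theorem pot_one {K : ℕ} (hK : 1 ≤ K) {P : Finset (Ind n)} (hP : Inv P)
    (hN : lo P + hi P + 2 ≤ K * K) (heq : lo P = hi P) (Y : Ind n)
    (h2 : size Y + 1 = hi P) (hf : top P ≤ fit Y) :
    pot K (update P Y) ≤ phi n K (lo P - 1) (lo P - 1) (top P) := by
  by_cases hne : top (update P Y) = top P
  · have h3 := lo_update_lt hP Y (by omega)
    have h4 := hi_update_top hP Y hf (by omega)
    unfold pot
    rw [h3, hne, h4, heq, ← h2, Nat.add_sub_cancel]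
  · have h3 := pot_jump hK hP hN Y (by omega) (by omega) hne
    refine h3.trans ?_
    have hw := ww_pos (n := n)
    unfold pot phi
    rw [← heq, Nat.sub_self, Nat.sub_self, hh_zero, hh_zero]
    have h5 : ((lo P - 1 : ℕ) : ℝ) = lo P - 1 := by
      rw [Nat.cast_sub (by omega)]; simp
    rw [h5]
    have : (0 : ℝ) ≤ 4 * K * ww n := by positivity
    nlinarith

end Q231.Smo
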