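import Pool.Agent.Q231.Smo.Expect

namespace Q231.Smo

open scoped ENNReal

set_option linter.unusedSectionVars false

variable {n : ℕ} [NeZero n]

theorem n_pos : 0 < n := Nat.pos_of_ne_zero (NeZero.ne n)

/-- one special parent -/
theorem step_le_of_special {P : Finset (Ind n)} (hP : Inv P) (u : Finset (Ind n) → ℝ≥0∞)
    (X0 : Ind n) (hX0 : X0 ∈ P) (U0 : ℝ) (h0 : 0 ≤ U0 - (n + 1))
    (h1 : ∀ X ∈ P, Ex (hvl X) (fun Y => u (update P Y)) ≤ ENNReal.ofReal U0)
    (h2 : Ex (hvl X0) (fun Y => u (update P Y)) ≤ ENNReal.ofReal (U0 - (n + 1))) :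
    Ex (step P) u ≤ ENNReal.ofReal (U0 - 1) := by
  classical
  rw [Ex_step P hP.ne]
  refine Ex_uniformFinset_le P hP.ne _ (fun X => U0 - if X = X0 then (n + 1 : ℝ) else 0) ?_ ?_ _ ?_
  · intro X hX
    by_cases h : X = X0
    · subst h; simpa using h2
    · simpa [h] using h1 X hX
  · intro X hX
    split_ifs
    · exact h0
    · have : (0 : ℝ) ≤ n := by positivity
      linarith
  · rw [Finset.sum_sub_distrib, Finset.sum_ite_eq' P X0, if_pos hX0, Finset.sum_const, nsmul_eq_mul]
    have hc : (P.card : ℝ) ≤ n + 1 := by exact_mod_cast hP.card_le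
    linarith

/-- two special parents -/
theorem step_le_of_two {P : Finset (Ind n)} (hP : Inv P) (u : Finset (Ind n) → ℝ≥0∞)
    (X0 X1 : Ind n) (hX0 : X0 ∈ P) (hX1 : X1 ∈ P) (hne : X0 ≠ X1) (U0 A B : ℝ) (hU : 0 ≤ U0)
    (hA : 0 ≤ A) (hB : 0 ≤ B)
    (hsum : A + B ≤ 2 * U0 - (n + 1))
    (h1 : ∀ X ∈ P, X ≠ X0 → X ≠ X1 → Ex (hvl X) (fun Y => u (update P Y)) ≤ ENNReal.ofReal U0)
    (h2 : Ex (hvl X0) (fun Y => u (update P Y)) ≤ ENNReal.ofReal A)
    (h3 : Ex (hvl X1) (fun Y => u (update P Y)) ≤ ENNReal.ofReal B) :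
    Ex (step P) u ≤ ENNReal.ofReal (U0 - 1) := by
  classical
  rw [Ex_step P hP.ne]
  refine Ex_uniformFinset_le P hP.ne _
    (fun X => U0 - (if X = X0 then (U0 - A) else 0) - (if X = X1 then (U0 - B) else 0)) ?_ ?_ _ ?_
  · intro X hX
    by_cases h : X = X0
    · subst h; simpa [hne] using h2
    · by_cases h' : X = X1
      · subst h'; simpa [h] using h3
      · simpa [h, h'] using h1 X hX h h'
  · intro X hX
    by_cases h : X = X0
    · subst h; simpa [hne] using hA
    · by_cases h' : X = X1
      · subst h'; simpa [h] using hB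
      · simpa [h, h'] using hU
  · rw [Finset.sum_sub_distrib, Finset.sum_sub_distrib, Finset.sum_ite_eq' P X0,
      Finset.sum_ite_eq' P X1, if_pos hX0, if_pos hX1, Finset.sum_const, nsmul_eq_mul]
    have hc : (P.card : ℝ) ≤ n + 1 := by exact_mod_cast hP.card_le
    linarith

/-- a population with one member -/
theorem step_single (u : Finset (Ind n) → ℝ≥0∞) (X : Ind n) (R : ℝ) (hR : 0 ≤ R)
    (h : Ex (hvl X) (fun Y => u (update {X} Y)) ≤ ENNReal.ofReal R) :
    Ex (step {X}) u ≤ ENNReal.ofReal R := by
  rw [Ex_step {X} (Finset.singleton_nonempty X)]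
  refine Ex_uniformFinset_le {X} _ _ (fun _ => R) ?_ (fun _ _ => hR) _ ?_
  · intro Y hY
    rw [Finset.mem_singleton] at hY
    subst hY; exact h
  · simp

/-- mutation of a nonempty tree: good literals for the insertion -/
theorem Ex_hvl_ins_le (t : Tree n) (φ : Ind n → ℝ≥0∞) (G : ℝ) (r : Lit n → ℝ) (hG : 0 ≤ G)
    (hr : ∀ x, 0 ≤ r x)
    (h1 : ∀ v < t.nodes, ∀ x b, φ (some (t.ins v x b)) ≤ ENNReal.ofReal (r x))
    (h2 : ∀ v < t.nodes, ∀ x, φ (some (t.sub v x)) ≤ ENNReal.ofReal G)
    (h3 : ∀ v < t.size, φ (t.del v) ≤ ENNReal.ofReal G) (R : ℝ) (hR0 : 0 ≤ R)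
    (hR : ∑ x, r x ≤ 2 * n * R) :
    Ex (hvl (some t)) φ ≤ ENNReal.ofReal (2 / 3 * G + 1 / 3 * R) := by
  classical
  rw [hvl, Ex_bind]
  refine Ex_uniform_le _ (fun o => match o with
    | Op.INS => R
    | Op.DEL => G
    | Op.SUB => G) ?_ ?_ _ ?_
  · intro o
    cases o with
    | INS =>
      simp only
      rw [Ex_map]
      refine Ex_uniform_le _ (fun c : Fin t.nodes × Lit n × Bool => r c.2.1)
        (fun c => h1 c.1 c.1.2 _ _) (fun c => hr _) _ ?_
      rw [Fintype.sum_prod_type]
      simp only [Finset.sum_const, Finset.card_univ, Fintype.card_fin, nsmul_eq_mul,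
        Fintype.card_prod, Fintype.card_bool]
      rw [Fintype.sum_prod_type]
      simp only [Finset.sum_const, Finset.card_univ, nsmul_eq_mul, Fintype.card_bool]
      rw [← Finset.mul_sum]
      push_cast
      have hn : (0 : ℝ) ≤ t.nodes := by positivity
      have := mul_le_mul_of_nonneg_left hR hn
      nlinarith
    | DEL =>
      simp only
      rw [Ex_map]
      exact Ex_uniform_const_le _ _ hG fun v => h3 v v.2
    | SUB =>
      simp only
      rw [Ex_map]
      exact Ex_uniform_const_le _ _ hG fun c => h2 c.1 c.1.2 _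
  · intro o
    cases o <;> simp only <;> assumption
  · rw [sum_op, card_op]
    simp only
    push_cast
    linarith

/-- the potential of the final phase -/
noncomputable def u2 (P : Finset (Ind n)) : ℝ :=
  3 * (n + 1) * lo P + 6 * n * (n + 1) * missing P

theorem u2_nonneg (P : Finset (Ind n)) : 0 ≤ u2 P := by unfold u2; positivity

theorem u2_update_le {P : Finset (Ind n)} (hP : Inv P) (Y : Ind n) : u2 (update P Y) ≤ u2 P := by
  have h1 : (lo (update P Y) : ℝ) ≤ lo P := by exact_mod_cast lo_update_le hP.ne Y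
  have h2 : (missing (update P Y) : ℝ) ≤ missing P := by exact_mod_cast missing_update_le Y
  unfold u2
  gcongr

theorem u2_le_lo {P : Finset (Ind n)} : 3 * (n + 1) * (lo P : ℝ) ≤ u2 P := by
  have : (0 : ℝ) ≤ 6 * n * (n + 1) * missing P := by positivity
  unfold u2
  linarith

theorem u2_le_missing {P : Finset (Ind n)} : 6 * n * (n + 1) * (missing P : ℝ) ≤ u2 P := by
  have : (0 : ℝ) ≤ 3 * (n + 1) * (lo P : ℝ) := by positivity
  unfold u2
  linarith

theorem u2_update_lo {P : Finset (Ind n)} (Y : Ind n) (h : lo (update P Y) + 1 ≤ lo P) :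
    u2 (update P Y) ≤ u2 P - 3 * (n + 1) := by
  have h1 : (lo (update P Y) : ℝ) + 1 ≤ lo P := by exact_mod_cast h
  have h2 : (missing (update P Y) : ℝ) ≤ missing P := by exact_mod_cast missing_update_le Y
  unfold u2
  have h3 : 3 * ((n : ℝ) + 1) * (lo (update P Y) + 1) ≤ 3 * (n + 1) * lo P := by gcongr
  have h4 : 6 * (n : ℝ) * (n + 1) * missing (update P Y) ≤ 6 * n * (n + 1) * missing P := by gcongr
  linarith

theorem u2_update_missing {P : Finset (Ind n)} (hP : Inv P) (Y : Ind n)
    (h : missing (update P Y) < missing P) :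
    u2 (update P Y) ≤ u2 P - 6 * n * (n + 1) := by
  have h1 : (lo (update P Y) : ℝ) ≤ lo P := by exact_mod_cast lo_update_le hP.ne Y
  have h2 : (missing (update P Y) : ℝ) + 1 ≤ missing P := by exact_mod_cast h
  unfold u2
  have h3 : 3 * ((n : ℝ) + 1) * (lo (update P Y)) ≤ 3 * (n + 1) * lo P := by gcongr
  have h4 : 6 * (n : ℝ) * (n + 1) * (missing (update P Y) + 1) ≤ 6 * n * (n + 1) * missing P := by
    gcongr
  linarith

theorem drift2 {P : Finset (Ind n)} (hP : Inv P) (hc : ¬ Complete P) :
    Ex (step P) (fun Q => ENNReal.ofReal (u2 Q)) ≤ ENNReal.ofReal (u2 P - 1) := by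
  classical
  have hn : (1 : ℝ) ≤ n := by exact_mod_cast n_pos
  have hall : ∀ X ∈ P, Ex (hvl X) (fun Y => ENNReal.ofReal (u2 (update P Y))) ≤
      ENNReal.ofReal (u2 P) := by
    intro X _
    refine (Ex_mono _ fun Y _ => ENNReal.ofReal_le_ofReal (u2_update_le hP Y)).trans ?_
    rw [Ex_const]
  by_cases hlo : lo P = 0
  · obtain ⟨j, hj, ⟨X, hX, hf, hs⟩, hmiss⟩ := exists_step hP hlo hc
    have hmpos : 1 ≤ missing P := by
      have : j + 1 ∈ (Finset.range (n + 1)).filter
          (fun j => ∀ X ∈ P, ¬ (fit X = j ∧ size X = j)) := by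
        rw [Finset.mem_filter, Finset.mem_range]
        exact ⟨by omega, hmiss⟩
      exact Finset.card_pos.2 ⟨_, this⟩
    have hu : 6 * (n : ℝ) * (n + 1) ≤ u2 P := by
      refine le_trans ?_ u2_le_missing
      have : (1 : ℝ) ≤ missing P := by exact_mod_cast hmpos
      nlinarith [mul_nonneg (by positivity : (0:ℝ) ≤ 6 * n * (n + 1)) (sub_nonneg.2 this)]
    have hu1 : (n : ℝ) + 1 ≤ u2 P := by nlinarith
    have hgood : ∀ Y : Ind n, fit Y = j + 1 → size Y = j + 1 →
        u2 (update P Y) ≤ u2 P - 6 * n * (n + 1) := by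
      intro Y h1 h2
      apply u2_update_missing hP
      apply missing_update_lt Y (by omega)
      rw [h1]; exact hmiss
    refine step_le_of_special hP _ X hX (u2 P) (by linarith) hall ?_
    cases X with
    | none =>
      have hj0 : j = 0 := by simpa [size] using hs.symm
      subst hj0
      rw [hvl, Ex_map]
      refine Ex_uniform_le _ (fun x => u2 P - if x.2 = true then 6 * (n : ℝ) * (n + 1) else 0)
        ?_ ?_ _ ?_
      · intro x
        apply ENNReal.ofReal_le_ofReal
        by_cases hx : x.2 = true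
        · rw [if_pos hx]
          have h1 : fitL ([] ++ (x.1, true) :: ([] : List (Lit n))) = fitL ([] ++ []) + 1 :=
            fitL_insert_missing [] [] x.1 (by simp)
          have h2 : fitL ([] ++ ([] : List (Lit n))) = 0 := by
            have := fitL_le_length ([] ++ ([] : List (Lit n)))
            simpa using this
          have hx' : x = (x.1, true) := by rw [← hx]
          apply hgood
          · rw [fit_eq]
            show fitL [x] = 0 + 1
            rw [hx']
            rw [h2] at h1
            exact h1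
          · rfl
        · rw [if_neg hx, sub_zero]
          exact u2_update_le hP _
      · intro x
        split_ifs
        · linarith
        · linarith
      · rw [Finset.sum_sub_distrib, Finset.sum_const, nsmul_eq_mul, Fintype.sum_prod_type]
        simp only [Fintype.sum_bool, if_true, Bool.false_eq_true, if_false, add_zero,
          Finset.sum_const, Finset.card_univ, Fintype.card_fin, nsmul_eq_mul, Fintype.card_prod,
          Fintype.card_bool]
        push_cast
        nlinarith [mul_nonneg (by positivity : (0:ℝ) ≤ (n : ℝ) * (n + 1)) (sub_nonneg.2 hn)]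
    | some t =>
      have hts : t.leaves.length = j := by rw [← t.size_eq]; exact hs
      obtain ⟨i, hi⟩ := exists_missing t.leaves (by omega)
      have hb := Ex_hvl_ins_le t (fun Y => ENNReal.ofReal (u2 (update P Y))) (u2 P)
        (fun x => u2 P - if x = (i, true) then 6 * (n : ℝ) * (n + 1) else 0) (u2_nonneg P)
        (by intro x; split_ifs <;> linarith) ?_ ?_ ?_ (u2 P - 3 * (n + 1))
        (by nlinarith) ?_
      · refine hb.trans (ENNReal.ofReal_le_ofReal ?_)
        linarith
      · intro v hv x b
        apply ENNReal.ofReal_le_ofReal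
        by_cases hx : x = (i, true)
        · rw [if_pos hx]
          subst hx
          obtain ⟨L1, L2, h1, h2⟩ := t.ins_leaves v hv (i, true) b
          apply hgood
          · rw [fit_eq]
            show fitL (t.ins v (i, true) b).leaves = _
            rw [h2, fitL_insert_missing L1 L2 i (by rw [← h1]; exact hi), ← h1]
            have : fitL t.leaves = j := hf
            omega
          · rw [ins_size t v hv, t.size_eq]; omega
        · rw [if_neg hx, sub_zero]
          exact u2_update_le hP _
      · intro v _ x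
        exact ENNReal.ofReal_le_ofReal (u2_update_le hP _)
      · intro v _
        exact ENNReal.ofReal_le_ofReal (u2_update_le hP _)
      · rw [Finset.sum_sub_distrib, Finset.sum_const, nsmul_eq_mul,
          Finset.sum_ite_eq' Finset.univ (i, true)]
        simp only [Finset.mem_univ, if_true, Finset.card_univ, Fintype.card_prod,
          Fintype.card_fin, Fintype.card_bool]
        push_cast
        nlinarith
  · obtain ⟨X, hX, hs⟩ := exists_lo hP.ne
    have hlo1 : (1 : ℝ) ≤ lo P := by exact_mod_cast Nat.one_le_iff_ne_zero.2 hlo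
    have hu : 3 * ((n : ℝ) + 1) ≤ u2 P := by
      refine le_trans ?_ u2_le_lo
      nlinarith
    refine step_le_of_special hP _ X hX (u2 P) (by linarith) hall ?_
    cases X with
    | none => exact absurd hs.symm hlo
    | some t =>
      have hb := Ex_hvl_le t (fun Y => ENNReal.ofReal (u2 (update P Y))) (u2 P)
        (u2 P - 3 * (n + 1)) (u2 P - 3 * (n + 1)) (u2_nonneg P) (by linarith) le_rfl
        (fun v _ x b => ENNReal.ofReal_le_ofReal (u2_update_le hP _))
        (fun v _ x => ENNReal.ofReal_le_ofReal (u2_update_le hP _)) ?_ ?_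
      · refine hb.trans (ENNReal.ofReal_le_ofReal ?_)
        rw [sub_self, mul_zero, add_zero]
        linarith
      · intro v hv _
        apply ENNReal.ofReal_le_ofReal
        apply u2_update_lo
        have h1 := del_size t v hv
        have h2 : t.size = lo P := hs
        rw [lo_update_lt hP _ (by omega)]
        omega
      · intro v hv _
        apply ENNReal.ofReal_le_ofReal
        apply u2_update_lo
        have h1 := del_size t v hv
        have h2 : t.size = lo P := hs
        rw [lo_update_lt hP _ (by omega)]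
        omega

end Q231.Smo
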