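import Pool.Agent.Q231.Smo.Pop

namespace Q231.Smo

open scoped ENNReal

variable {n : ℕ}

/-- expectation of a function with values in `[0, ∞]` -/
noncomputable def Ex {α : Type*} (p : PMF α) (g : α → ℝ≥0∞) : ℝ≥0∞ := ∑' a, p a * g a

section
variable {α β : Type*}

theorem Ex_mono (p : PMF α) {f g : α → ℝ≥0∞} (h : ∀ a, p a ≠ 0 → f a ≤ g a) :
    Ex p f ≤ Ex p g := by
  refine ENNReal.tsum_le_tsum fun a => ?_
  by_cases ha : p a = 0
  · simp [ha]
  · exact mul_le_mul_right (h a ha) _

theorem Ex_pure (a : α) (g : α → ℝ≥0∞) : Ex (PMF.pure a) g = g a := by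
  classical
  unfold Ex
  rw [tsum_eq_single a]
  · simp
  · intro b hb; simp [hb]

theorem Ex_bind (p : PMF α) (f : α → PMF β) (g : β → ℝ≥0∞) :
    Ex (p.bind f) g = Ex p fun a => Ex (f a) g := by
  unfold Ex
  simp only [PMF.bind_apply, ← ENNReal.tsum_mul_right, ← ENNReal.tsum_mul_left]
  rw [ENNReal.tsum_comm]
  simp only [mul_assoc]

theorem Ex_map (p : PMF α) (f : α → β) (g : β → ℝ≥0∞) :
    Ex (p.map f) g = Ex p fun a => g (f a) := by
  rw [PMF.map, Ex_bind]
  simp only [Function.comp, Ex_pure]

theorem Ex_const (p : PMF α) (c : ℝ≥0∞) : Ex p (fun _ => c) = c := by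
  unfold Ex
  rw [ENNReal.tsum_mul_right, p.tsum_coe, one_mul]

theorem Ex_add (p : PMF α) (f g : α → ℝ≥0∞) : Ex p (fun a => f a + g a) = Ex p f + Ex p g := by
  unfold Ex
  rw [← ENNReal.tsum_add]
  simp only [mul_add]

/-- expectation under the uniform distribution of a finite type, real form -/
theorem Ex_uniform_le [Fintype α] [Nonempty α] (φ : α → ℝ≥0∞) (r : α → ℝ)
    (h : ∀ a, φ a ≤ ENNReal.ofReal (r a)) (h0 : ∀ a, 0 ≤ r a) (R : ℝ)
    (hR : ∑ a, r a ≤ Fintype.card α * R) :
    Ex (PMF.uniformOfFintype α) φ ≤ ENNReal.ofReal R := by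
  have hc : (0 : ℝ) < Fintype.card α := by exact_mod_cast Fintype.card_pos
  unfold Ex
  rw [tsum_fintype]
  simp only [PMF.uniformOfFintype_apply]
  calc ∑ a, ((Fintype.card α : ℝ≥0∞))⁻¹ * φ a
      ≤ ∑ a, ((Fintype.card α : ℝ≥0∞))⁻¹ * ENNReal.ofReal (r a) :=
        Finset.sum_le_sum fun a _ => mul_le_mul_right (h a) _
    _ = ∑ a, ENNReal.ofReal ((Fintype.card α : ℝ)⁻¹ * r a) := by
        apply Finset.sum_congr rfl
        intro a _
        rw [ENNReal.ofReal_mul (by positivity), ENNReal.ofReal_inv_of_pos hc,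
          ENNReal.ofReal_natCast]
    _ = ENNReal.ofReal (∑ a, (Fintype.card α : ℝ)⁻¹ * r a) := by
        rw [ENNReal.ofReal_sum_of_nonneg]
        intro a _
        exact mul_nonneg (by positivity) (h0 a)
    _ ≤ ENNReal.ofReal R := by
        apply ENNReal.ofReal_le_ofReal
        rw [← Finset.mul_sum]
        calc (Fintype.card α : ℝ)⁻¹ * ∑ a, r a ≤ (Fintype.card α : ℝ)⁻¹ * (Fintype.card α * R) :=
              mul_le_mul_of_nonneg_left hR (by positivity)
          _ = R := by field_simp

/-- expectation under the uniform distribution of a finite set, real form -/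
theorem Ex_uniformFinset_le (s : Finset α) (hs : s.Nonempty) (φ : α → ℝ≥0∞) (r : α → ℝ)
    (h : ∀ a ∈ s, φ a ≤ ENNReal.ofReal (r a)) (h0 : ∀ a ∈ s, 0 ≤ r a) (R : ℝ)
    (hR : ∑ a ∈ s, r a ≤ s.card * R) :
    Ex (PMF.uniformOfFinset s hs) φ ≤ ENNReal.ofReal R := by
  classical
  have hc : (0 : ℝ) < s.card := by exact_mod_cast Finset.card_pos.2 hs
  unfold Ex
  rw [tsum_eq_sum (s := s) (by
    intro b hb
    rw [PMF.uniformOfFinset_apply_of_notMem hs hb, zero_mul])]
  calc ∑ a ∈ s, (PMF.uniformOfFinset s hs) a * φ a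
      ≤ ∑ a ∈ s, ENNReal.ofReal ((s.card : ℝ)⁻¹ * r a) := by
        apply Finset.sum_le_sum
        intro a ha
        rw [PMF.uniformOfFinset_apply_of_mem hs ha]
        rw [ENNReal.ofReal_mul (by positivity), ENNReal.ofReal_inv_of_pos hc,
          ENNReal.ofReal_natCast]
        exact mul_le_mul_right (h a ha) _
    _ = ENNReal.ofReal (∑ a ∈ s, (s.card : ℝ)⁻¹ * r a) := by
        rw [ENNReal.ofReal_sum_of_nonneg]
        intro a ha
        exact mul_nonneg (by positivity) (h0 a ha)
    _ ≤ ENNReal.ofReal R := by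
        apply ENNReal.ofReal_le_ofReal
        rw [← Finset.mul_sum]
        calc (s.card : ℝ)⁻¹ * ∑ a ∈ s, r a ≤ (s.card : ℝ)⁻¹ * (s.card * R) :=
              mul_le_mul_of_nonneg_left hR (by positivity)
          _ = R := by field_simp

theorem Ex_uniform_const_le [Fintype α] [Nonempty α] (φ : α → ℝ≥0∞) (R : ℝ) (h0 : 0 ≤ R)
    (h : ∀ a, φ a ≤ ENNReal.ofReal R) :
    Ex (PMF.uniformOfFintype α) φ ≤ ENNReal.ofReal R := by
  refine (Ex_mono _ fun a _ => h a).trans ?_
  rw [Ex_const]

end

theorem card_op : Fintype.card Op = 3 := rfl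

theorem sum_op (f : Op → ℝ) : ∑ o, f o = f Op.INS + f Op.DEL + f Op.SUB := by
  show ∑ o ∈ ({Op.INS, Op.DEL, Op.SUB} : Finset Op), f o = _
  rw [Finset.sum_insert (by decide), Finset.sum_insert (by decide), Finset.sum_singleton]
  ring

variable [NeZero n]

/-- bound of the expectation after one mutation -/
theorem Ex_hvl_le (t : Tree n) (φ : Ind n → ℝ≥0∞) (G H C : ℝ) (hG : 0 ≤ G) (hH : 0 ≤ H)
    (hHC : H ≤ C)
    (h1 : ∀ v < t.nodes, ∀ x b, φ (some (t.ins v x b)) ≤ ENNReal.ofReal G)
    (h2 : ∀ v < t.nodes, ∀ x, φ (some (t.sub v x)) ≤ ENNReal.ofReal G)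
    (h3 : ∀ v < t.size, fit (some t) ≤ fit (t.del v) → φ (t.del v) ≤ ENNReal.ofReal H)
    (h4 : ∀ v < t.size, fit (t.del v) < fit (some t) → φ (t.del v) ≤ ENNReal.ofReal C) :
    Ex (hvl (some t)) φ ≤
      ENNReal.ofReal (2 / 3 * G + 1 / 3 * (H + n / t.size * (C - H))) := by
  classical
  have hs : (0 : ℝ) < t.size := by exact_mod_cast t.size_pos
  have hD : 0 ≤ H + n / t.size * (C - H) :=
    add_nonneg hH (mul_nonneg (by positivity) (by linarith))
  rw [hvl, Ex_bind]
  refine Ex_uniform_le _ (fun o => match o with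
    | Op.INS => G
    | Op.DEL => H + n / t.size * (C - H)
    | Op.SUB => G) ?_ ?_ _ ?_
  · intro o
    cases o with
    | INS =>
      simp only
      rw [Ex_map]
      exact Ex_uniform_const_le _ _ hG fun c => h1 c.1 c.1.2 _ _
    | DEL =>
      simp only
      rw [Ex_map]
      refine Ex_uniform_le _
        (fun v : Fin t.size => H + if fit (t.del v) < fit (some t) then C - H else 0) ?_ ?_ _ ?_
      · intro v
        by_cases hv : fit (t.del v) < fit (some t)
        · rw [if_pos hv]
          have := h4 v v.2 hv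
          rwa [add_sub_cancel]
        · rw [if_neg hv, add_zero]
          exact h3 v v.2 (not_lt.1 hv)
      · intro v
        split_ifs <;> linarith
      · rw [Finset.sum_add_distrib, ← Finset.sum_filter, Finset.sum_const, Finset.sum_const]
        simp only [Finset.card_univ, Fintype.card_fin, nsmul_eq_mul]
        have hcr : ((Finset.univ.filter
            (fun v : Fin t.size => fit (t.del v) < fit (some t))).card : ℝ) ≤ n := by
          exact_mod_cast del_crit t
        have : (t.size : ℝ) * (H + n / t.size * (C - H)) = t.size * H + n * (C - H) := by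
          field_simp
        rw [this]
        nlinarith
    | SUB =>
      simp only
      rw [Ex_map]
      exact Ex_uniform_const_le _ _ hG fun c => h2 c.1 c.1.2 _
  · intro o
    cases o <;> simp only <;> assumption
  · rw [sum_op, card_op]
    simp only
    push_cast
    linarith

/-- support of one mutation -/
theorem hvl_support (X Y : Ind n) (h : hvl X Y ≠ 0) :
    size Y ≤ size X + 1 ∧ size X ≤ size Y + 1 := by
  rw [← PMF.mem_support_iff] at h
  cases X with
  | none =>
    rw [hvl, PMF.mem_support_map_iff] at h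
    obtain ⟨x, _, hx⟩ := h
    subst hx
    simp [size, Tree.size]
  | some t =>
    rw [hvl, PMF.mem_support_bind_iff] at h
    obtain ⟨o, _, ho⟩ := h
    cases o with
    | INS =>
      simp only at ho
      rw [PMF.mem_support_map_iff] at ho
      obtain ⟨c, _, hc⟩ := ho
      rw [← hc, ins_size t _ c.1.2]
      simp only [size]; omega
    | DEL =>
      simp only at ho
      rw [PMF.mem_support_map_iff] at ho
      obtain ⟨v, _, hv⟩ := ho
      have := del_size t v v.2
      rw [← hv]
      simp only [size] at this ⊢; omega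
    | SUB =>
      simp only at ho
      rw [PMF.mem_support_map_iff] at ho
      obtain ⟨c, _, hc⟩ := ho
      rw [← hc]
      simp only [size, t.sub_size]; omega

theorem step_support (P Q : Finset (Ind n)) (hP : P.Nonempty) (h : step P Q ≠ 0) :
    ∃ X ∈ P, ∃ Y, size Y ≤ size X + 1 ∧ Q = update P Y := by
  rw [← PMF.mem_support_iff, step, dif_pos hP, PMF.mem_support_bind_iff] at h
  obtain ⟨X, hX, h⟩ := h
  rw [PMF.mem_support_uniformOfFinset_iff] at hX
  rw [PMF.mem_support_map_iff] at h
  obtain ⟨Y, hY, h⟩ := h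
  rw [PMF.mem_support_iff] at hY
  exact ⟨X, hX, Y, (hvl_support X Y hY).1, h.symm⟩

theorem Ex_step (P : Finset (Ind n)) (hP : P.Nonempty) (g : Finset (Ind n) → ℝ≥0∞) :
    Ex (step P) g = Ex (PMF.uniformOfFinset P hP) fun X => Ex (hvl X) fun Y => g (update P Y) := by
  rw [step, dif_pos hP, Ex_bind]
  simp only [Ex_map]

/-- partial sums of the tail probabilities are bounded by any supersolution -/
theorem expectedTime_le (Good : Finset (Ind n) → Prop) (U : Finset (Ind n) → ℝ≥0∞)
    (hne : ∀ P, Good P → P.Nonempty)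
    (hgood : ∀ P, Good P → ∀ Q, step P Q ≠ 0 → Good Q)
    (hU : ∀ P, Good P → ¬ Complete P → 1 + Ex (step P) U ≤ U P)
    (X : Ind n) (hX : Good {X}) : expectedTime X ≤ U {X} := by
  classical
  have key : ∀ t : ℕ, ∀ P, Good P → ∑ s ∈ Finset.range t, pending s P ≤ U P := by
    intro t
    induction t with
    | zero => intro P _; simp
    | succ t ih =>
      intro P hP
      by_cases hc : Complete P
      · have : ∀ s, pending s P = 0 := by
          intro s
          cases s <;> simp [pending, hc]
        simp [this]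
      · rw [Finset.sum_range_succ']
        have h0 : pending 0 P = 1 := by simp [pending, hc]
        have h1 : ∀ s, pending (s + 1) P = Ex (step P) (pending s) := by
          intro s
          rw [pending, if_neg hc]; rfl
        rw [h0]
        simp only [h1]
        have h2 : ∑ s ∈ Finset.range t, Ex (step P) (pending s) =
            Ex (step P) fun Q => ∑ s ∈ Finset.range t, pending s Q := by
          unfold Ex
          simp only [Finset.mul_sum]
          rw [Summable.tsum_finsetSum fun _ _ => ENNReal.summable]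
        rw [h2]
        calc Ex (step P) (fun Q => ∑ s ∈ Finset.range t, pending s Q) + 1
            ≤ Ex (step P) U + 1 := by
              gcongr
              exact Ex_mono _ fun Q hQ => ih Q (hgood P hP Q hQ)
          _ = 1 + Ex (step P) U := add_comm _ _
          _ ≤ U P := hU P hP hc
  unfold expectedTime
  rw [ENNReal.tsum_eq_iSup_nat]
  exact iSup_le fun t => key t _ hX

end Q231.Smo
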