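import Pool.Agent.Q231.Smo.Main

namespace Q231.Smo

open scoped ENNReal

variable {n : ℕ} [NeZero n]

/-- the region in which the process stays -/
def Good (M : ℕ) (P : Finset (Ind n)) : Prop := Inv P ∧ hi P + n ≤ M + top P

theorem Good.step {M : ℕ} {P : Finset (Ind n)} (h : Good M P) (Q : Finset (Ind n))
    (hQ : step P Q ≠ 0) : Good M Q := by
  obtain ⟨hP, hM⟩ := h
  obtain ⟨X, hX, Y, hs, rfl⟩ := step_support P Q hP.ne hQ
  refine ⟨hP.update Y, ?_⟩
  by_cases hne : top (update P Y) = top P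
  · have := hi_update_le hP.ne Y hne
    omega
  · obtain ⟨h3, h4, h5⟩ := fit_of_top_ne hP Y hne
    have := hP.size_le_hi hX
    omega

theorem Good.clock {M K : ℕ} {P : Finset (Ind n)} (h : Good M P) (hK : 2 * M + 2 ≤ K * K) :
    lo P + hi P + 2 ≤ K * K := by
  have h1 := h.1.lo_le_hi
  have h2 := top_le_n P
  have h3 := h.2
  omega

/-- threshold between the two phases -/
def s0 (n K : ℕ) : ℕ := 4 * n * (n + 1) * K

/-- bound for the final phase -/
noncomputable def cc (n K : ℕ) : ℝ := 3 * (n + 1) * s0 n K + 6 * n * (n + 1) * (n + 1)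

theorem u2_le_cc {K : ℕ} {P : Finset (Ind n)} (h : lo P < s0 n K) : u2 P ≤ cc n K := by
  have h1 : (lo P : ℝ) ≤ s0 n K := by exact_mod_cast h.le
  have h2 : (missing P : ℝ) ≤ n + 1 := by exact_mod_cast missing_le P
  unfold u2 cc
  gcongr

open Classical in
/-- the combined potential -/
noncomputable def U (K : ℕ) (P : Finset (Ind n)) : ℝ≥0∞ :=
  if lo P < s0 n K then ENNReal.ofReal (u2 P) else ENNReal.ofReal (pot K P + cc n K)

theorem cc_nonneg (K : ℕ) : 0 ≤ cc n K := by unfold cc; positivity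

theorem U_le (K : ℕ) (P : Finset (Ind n)) : U K P ≤ ENNReal.ofReal (pot K P + cc n K) := by
  unfold U
  split_ifs with h
  · apply ENNReal.ofReal_le_ofReal
    have := u2_le_cc h
    have := pot_nonneg K P
    linarith
  · exact le_rfl

theorem U_super {M K : ℕ} (hK : 1 ≤ K) (hM : 2 * M + 2 ≤ K * K) (P : Finset (Ind n))
    (h : Good M P) (hc : ¬ Complete P) : 1 + Ex (step P) (U K) ≤ U K P := by
  by_cases hlo : lo P < s0 n K
  · have e : U K P = ENNReal.ofReal (u2 P) := by unfold U; rw [if_pos hlo]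
    rw [e]
    have h1 : Ex (step P) (U K) ≤ Ex (step P) (fun Q => ENNReal.ofReal (u2 Q)) := by
      refine Ex_mono _ fun Q hQ => ?_
      obtain ⟨X, hX, Y, hs, rfl⟩ := step_support P Q h.1.ne hQ
      have : lo (update P Y) < s0 n K := (lo_update_le h.1.ne Y).trans_lt hlo
      unfold U
      rw [if_pos this]
    have h2 := drift2 h.1 hc
    have h3 : 1 ≤ u2 P := by
      by_contra hlt
      push Not at hlt
      -- then everything is attained
      have hn : (1 : ℝ) ≤ n := by exact_mod_cast n_pos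
      have h4 : (lo P : ℝ) < 1 := by
        have := @u2_le_lo n _ P
        by_contra hge
        push Not at hge
        nlinarith [mul_le_mul_of_nonneg_left hge (by positivity : (0:ℝ) ≤ 3 * (n + 1))]
      have h4' : lo P = 0 := by
        have : lo P < 1 := by exact_mod_cast h4
        omega
      obtain ⟨j, hj, _, hmiss⟩ := exists_step h.1 h4' hc
      have hmpos : 1 ≤ missing P := by
        have : j + 1 ∈ (Finset.range (n + 1)).filter
            (fun j => ∀ X ∈ P, ¬ (fit X = j ∧ size X = j)) := by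
          rw [Finset.mem_filter, Finset.mem_range]
          exact ⟨by omega, hmiss⟩
        exact Finset.card_pos.2 ⟨_, this⟩
      have h5 : (1 : ℝ) ≤ missing P := by exact_mod_cast hmpos
      have h6 := @u2_le_missing n _ P
      have h7 := mul_le_mul_of_nonneg_left h5 (by positivity : (0:ℝ) ≤ 6 * n * (n + 1))
      nlinarith
    calc 1 + Ex (step P) (U K) ≤ ENNReal.ofReal 1 + ENNReal.ofReal (u2 P - 1) := by
          rw [ENNReal.ofReal_one]
          gcongr
          exact h1.trans h2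
      _ = ENNReal.ofReal (u2 P) := by
          rw [← ENNReal.ofReal_add zero_le_one (by linarith)]
          congr 1; ring
  · have e : U K P = ENNReal.ofReal (pot K P + cc n K) := by unfold U; rw [if_neg hlo]
    rw [e]
    have h1 : Ex (step P) (U K) ≤ Ex (step P) (fun Q => ENNReal.ofReal (pot K Q + cc n K)) :=
      Ex_mono _ fun Q _ => U_le K Q
    have h2 := drift1 hK h.1 (h.clock hM) (not_lt.1 hlo) (cc n K) (cc_nonneg K)
    have h3 : 1 ≤ cc n K := by
      have hn : (1 : ℝ) ≤ n := by exact_mod_cast n_pos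
      have : (0 : ℝ) ≤ 3 * (n + 1) * s0 n K := by positivity
      unfold cc
      nlinarith [mul_nonneg (by positivity : (0:ℝ) ≤ (n:ℝ)) (by positivity : (0:ℝ) ≤ (n:ℝ))]
    have h4 := pot_nonneg K P
    calc 1 + Ex (step P) (U K)
        ≤ ENNReal.ofReal 1 + ENNReal.ofReal (pot K P + cc n K - 1) := by
          rw [ENNReal.ofReal_one]
          gcongr
          exact h1.trans h2
      _ = ENNReal.ofReal (pot K P + cc n K) := by
          rw [← ENNReal.ofReal_add zero_le_one (by linarith)]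
          congr 1; ring

theorem inv_single (X : Ind n) : Inv ({X} : Finset (Ind n)) := by
  refine ⟨Finset.singleton_nonempty X, ?_⟩
  intro A hA B hB _
  rw [Finset.mem_singleton] at hA hB
  rw [hA, hB]

theorem lo_single (X : Ind n) : lo ({X} : Finset (Ind n)) = size X := by
  obtain ⟨Z, hZ, hs⟩ := exists_lo (inv_single X).ne
  rw [Finset.mem_singleton] at hZ
  rw [← hs, hZ]

theorem hi_single (X : Ind n) : hi ({X} : Finset (Ind n)) = size X := by
  obtain ⟨Z, hZ, _, hs⟩ := exists_top (inv_single X).ne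
  rw [Finset.mem_singleton] at hZ
  rw [← hs, hZ]

theorem top_single (X : Ind n) : top ({X} : Finset (Ind n)) = fit X := by
  unfold top; simp

/-- **Upper bound.** -/
theorem expectedTime_bound (X : Ind n) :
    expectedTime X ≤ ENNReal.ofReal (1000 * (size X + n ^ 6)) := by
  set T := size X with hT
  set M := T + n with hMdef
  set K := Nat.sqrt (2 * M + 2) + 1 with hKdef
  have hK : 1 ≤ K := by omega
  have hM : 2 * M + 2 ≤ K * K := (Nat.lt_succ_sqrt (2 * M + 2)).le
  have hgood : Good M ({X} : Finset (Ind n)) := by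
    refine ⟨inv_single X, ?_⟩
    rw [hi_single, top_single]; omega
  refine (expectedTime_le (Good M) (U K) (fun P hP => hP.1.ne) (fun P hP Q hQ => hP.step Q hQ)
    (fun P hP hc => U_super hK hM P hP hc) X hgood).trans ?_
  refine (U_le K _).trans ?_
  apply ENNReal.ofReal_le_ofReal
  have hn : (1 : ℝ) ≤ n := by exact_mod_cast n_pos
  have hKr : (1 : ℝ) ≤ K := by exact_mod_cast hK
  have hpot : pot K ({X} : Finset (Ind n)) ≤ 6 * T + bb n K * n := by
    unfold pot phi
    rw [lo_single, hi_single, top_single, Nat.sub_self, hh_zero]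
    have h1 := bb_pos (n := n) K
    have h2 : (0 : ℝ) ≤ fit X := by positivity
    nlinarith [mul_nonneg h1.le h2]
  have hK2 : (K : ℝ) * K ≤ 4 * T + 4 * n + 6 := by
    have h1 : Nat.sqrt (2 * M + 2) * Nat.sqrt (2 * M + 2) ≤ 2 * M + 2 := Nat.sqrt_le _
    have h2 : ((Nat.sqrt (2 * M + 2) : ℕ) : ℝ) * (Nat.sqrt (2 * M + 2) : ℕ) ≤ 2 * M + 2 := by
      exact_mod_cast h1
    have h3 : (K : ℝ) = (Nat.sqrt (2 * M + 2) : ℕ) + 1 := by rw [hKdef]; push_cast; ring
    have h4 : (M : ℝ) = T + n := by rw [hMdef]; push_cast; ring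
    rw [h3]
    nlinarith [sq_nonneg (((Nat.sqrt (2 * M + 2) : ℕ) : ℝ) - 1)]
  refine (add_le_add_left hpot _).trans ?_
  unfold bb cc s0 ww
  push_cast
  have hn1 : (n : ℝ) + 1 ≤ 2 * n := by linarith
  have hn3 : (n : ℝ) ≤ n ^ 3 := by nlinarith [sq_nonneg ((n:ℝ) - 1), mul_nonneg (sub_nonneg.2 hn) (sub_nonneg.2 hn)]
  have hn6 : (n : ℝ) ^ 3 ≤ n ^ 6 := by
    have : (1 : ℝ) ≤ (n : ℝ) ^ 3 := one_le_pow₀ hn
    nlinarith
  have hkn : (K : ℝ) * n ^ 3 ≤ (K * K + n ^ 6) / 2 := by
    nlinarith [sq_nonneg ((K : ℝ) - n ^ 3)]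
  have t1 : 13 * (K : ℝ) * (3 * (n + 1)) * n ≤ 78 * (K * n ^ 3) := by
    have a1 : 13 * (K : ℝ) * (3 * (n + 1)) * n ≤ 13 * K * (3 * (2 * n)) * n := by gcongr
    have a2 : (n : ℝ) * n ≤ n ^ 3 := by nlinarith [mul_nonneg (sub_nonneg.2 hn) (mul_nonneg (by positivity : (0:ℝ) ≤ n) (by positivity : (0:ℝ) ≤ n))]
    have a3 : 13 * (K : ℝ) * (3 * (2 * n)) * n = 78 * (K * (n * n)) := by ring
    have a4 : (K : ℝ) * (n * n) ≤ K * n ^ 3 := by gcongr
    linarith
  have t2 : 3 * ((n : ℝ) + 1) * (4 * n * (n + 1) * K) ≤ 48 * (K * n ^ 3) := by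
    have a1 : 3 * ((n : ℝ) + 1) * (4 * n * (n + 1) * K) ≤ 3 * (2 * n) * (4 * n * (2 * n) * K) := by
      gcongr
    have a2 : 3 * (2 * (n : ℝ)) * (4 * n * (2 * n) * K) = 48 * (K * n ^ 3) := by ring
    linarith
  have t3 : 6 * (n : ℝ) * (n + 1) * (n + 1) ≤ 24 * n ^ 3 := by
    have a1 : 6 * (n : ℝ) * (n + 1) * (n + 1) ≤ 6 * n * (2 * n) * (2 * n) := by gcongr
    have a2 : 6 * (n : ℝ) * (2 * n) * (2 * n) = 24 * n ^ 3 := by ring
    linarith
  have hT0 : (0 : ℝ) ≤ T := by positivity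
  nlinarith

/-- worst-case expected optimization time over the initial trees with `T` leaves -/
noncomputable def worstTime (n : ℕ) [NeZero n] (T : ℕ) : ℝ≥0∞ :=
  ⨆ (X : Ind n) (_ : size X = T), expectedTime X

theorem worstTime_le (T : ℕ) : worstTime n T ≤ ENNReal.ofReal (1000 * (T + n ^ 6)) := by
  unfold worstTime
  refine iSup_le fun X => iSup_le fun h => ?_
  rw [← h]
  exact expectedTime_bound X

theorem worstTime_small (c : ℝ) (hc : 0 < c) : ∃ n₀ : ℕ, ∀ n : ℕ, ∀ _ : NeZero n, n₀ ≤ n →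
    ∀ T : ℕ, n ^ 6 ≤ T →
      worstTime n T < ENNReal.ofReal (c * (n * T + n ^ 2 * Real.log n)) := by
  obtain ⟨n₀, hn₀⟩ := exists_nat_gt (2000 / c)
  refine ⟨n₀, fun n _ hn T hT => ?_⟩
  refine (worstTime_le T).trans_lt ?_
  have hn1 : (1 : ℝ) ≤ n := by exact_mod_cast n_pos (n := n)
  have hTr : (n : ℝ) ^ 6 ≤ T := by exact_mod_cast hT
  have hn6 : (1 : ℝ) ≤ (n : ℝ) ^ 6 := one_le_pow₀ hn1
  have hlog : 0 ≤ Real.log n := Real.log_nonneg hn1
  have h1 : 2000 < c * n := by
    have h2 : (n₀ : ℝ) ≤ n := by exact_mod_cast hn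
    have h3 : 2000 / c < n := by linarith
    rw [div_lt_iff₀ hc] at h3
    linarith
  have h4 : (0 : ℝ) < T := by linarith
  rw [ENNReal.ofReal_lt_ofReal_iff_of_nonneg (by positivity)]
  have h5 : 0 ≤ c * ((n : ℝ) ^ 2 * Real.log n) := by positivity
  nlinarith

end Q231.Smo
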