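import Pool.Agent.Q231.Smo.Drift1

namespace Q231.Smo

open scoped ENNReal

variable {n : ℕ} [NeZero n]

theorem Ex_mem_le {K : ℕ} (hK : 1 ≤ K) {P : Finset (Ind n)} (hP : Inv P)
    (hN : lo P + hi P + 2 ≤ K * K) (C : ℝ) (hC : 0 ≤ C) (t : Tree n) (ht : some t ∈ P)
    (H C' : ℝ) (hH : 0 ≤ H) (hHC : H ≤ C')
    (h3 : ∀ v < t.size, fit (some t) ≤ fit (t.del v) → pot K (update P (t.del v)) + C ≤ H)
    (h4 : ∀ v < t.size, fit (t.del v) < fit (some t) → pot K (update P (t.del v)) + C ≤ C') :
    Ex (hvl (some t)) (fun Y => ENNReal.ofReal (pot K (update P Y) + C)) ≤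
      ENNReal.ofReal (2 / 3 * (pot K P + C) + 1 / 3 * (H + n / t.size * (C' - H))) := by
  have h8 : t.size ≤ hi P := hP.size_le_hi ht
  have h9 : lo P ≤ t.size := lo_le ht
  refine Ex_hvl_le t _ (pot K P + C) H C' (add_nonneg (pot_nonneg K P) hC) hH hHC ?_ ?_ ?_ ?_
  · intro v hv x b
    apply ENNReal.ofReal_le_ofReal
    have := pot_same hK hP hN (some (t.ins v x b)) (by rw [ins_size t v hv]; omega)
      (by rw [ins_size t v hv]; omega)
    linarith
  · intro v _ x
    apply ENNReal.ofReal_le_ofReal
    have hs : size (some (t.sub v x)) = t.size := t.sub_size v x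
    have := pot_same hK hP hN (some (t.sub v x)) (by rw [hs]; omega) (by rw [hs]; omega)
    linarith
  · intro v hv hf
    exact ENNReal.ofReal_le_ofReal (h3 v hv hf)
  · intro v hv hf
    exact ENNReal.ofReal_le_ofReal (h4 v hv hf)

theorem drift1 {K : ℕ} (hK : 1 ≤ K) {P : Finset (Ind n)} (hP : Inv P)
    (hN : lo P + hi P + 2 ≤ K * K) (hs : 4 * n * (n + 1) * K ≤ lo P) (C : ℝ) (hC : 0 ≤ C) :
    Ex (step P) (fun Q => ENNReal.ofReal (pot K Q + C)) ≤ ENNReal.ofReal (pot K P + C - 1) := by
  have hn : 1 ≤ n := n_pos
  have hnr : (1 : ℝ) ≤ n := by exact_mod_cast hn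
  have hKr : (1 : ℝ) ≤ K := by exact_mod_cast hK
  have hlo1 : 8 ≤ lo P := by
    refine le_trans ?_ hs
    have : 1 * 2 * 1 ≤ n * (n + 1) * K := Nat.mul_le_mul (Nat.mul_le_mul hn (by omega)) hK
    nlinarith
  have hlohi := hP.lo_le_hi
  have hw := ww_pos (n := n)
  have hlor : 4 * (n : ℝ) * (n + 1) * K ≤ lo P := by exact_mod_cast hs
  have hlopos : (0 : ℝ) < lo P := by
    have : (8 : ℝ) ≤ lo P := by exact_mod_cast hlo1
    linarith
  have hcast : ((lo P - 1 : ℕ) : ℝ) = lo P - 1 := by
    rw [Nat.cast_sub (by omega)]; simp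
  rcases hlohi.lt_or_eq with hlt | heq
  · obtain ⟨X0, hX0, hs0⟩ := exists_lo hP.ne
    obtain ⟨X1, hX1, hf1, hs1⟩ := exists_top hP.ne
    have hne : X0 ≠ X1 := by
      rintro rfl
      omega
    obtain ⟨t0, rfl⟩ : ∃ t, X0 = some t := by
      cases X0 with
      | none => simp only [size] at hs0; omega
      | some t => exact ⟨t, rfl⟩
    obtain ⟨t1, rfl⟩ : ∃ t, X1 = some t := by
      cases X1 with
      | none => simp only [size] at hs1; omega
      | some t => exact ⟨t, rfl⟩
    have hs0' : t0.size = lo P := hs0
    have hs1' : t1.size = hi P := hs1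
    set A1 : ℝ := phi n K (lo P - 1) (hi P) (top P) with hA1
    set A2 : ℝ := phi n K (lo P) (hi P - 1) (top P) with hA2
    have hA1n : 0 ≤ A1 := phi_nonneg _ _ _ _ (top_le_n P)
    have hA2n : 0 ≤ A2 := phi_nonneg _ _ _ _ (top_le_n P)
    have hpn := pot_nonneg K P
    have hA2le : A2 ≤ pot K P := phi_mono_b (by omega)
    have hdiff : pot K P - A2 ≤ 4 * K * ww n := by
      rw [hA2]
      unfold pot phi
      have h4 : hh K (hi P - lo P) (lo P + hi P) ≤
          hh K (hi P - 1 - lo P) (lo P + (hi P - 1)) + 4 * K := by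
        have e1 : hi P - lo P = (hi P - 1 - lo P) + 1 := by omega
        have e2 : lo P + hi P = (lo P + (hi P - 1)) + 1 := by omega
        rw [e1, e2]
        exact hh_step_le hK _ _ (by omega)
      have h6 := mul_le_mul_of_nonneg_left h4 hw.le
      nlinarith
    have hsum : A1 + A2 - 2 * pot K P ≤ -6 - 2 * ww n := by
      rw [hA1, hA2]
      unfold pot phi
      rw [hcast]
      have h4 := hh_drift hK (hi P - 1 - lo P) (lo P + (hi P - 1))
      have e1 : hi P - lo P = (hi P - 1 - lo P) + 1 := by omega
      have e2 : lo P + hi P = (lo P + (hi P - 1)) + 1 := by omega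
      have e3 : hi P - (lo P - 1) = (hi P - 1 - lo P) + 2 := by omega
      have e4 : lo P - 1 + hi P = lo P + (hi P - 1) := by omega
      rw [e1, e2, e3, e4]
      have h6 := mul_le_mul_of_nonneg_left h4 hw.le
      nlinarith
    have hhi : 4 * (n : ℝ) * K ≤ hi P := by
      have h1 : (lo P : ℝ) ≤ hi P := by exact_mod_cast hlohi
      nlinarith [mul_nonneg (by positivity : (0:ℝ) ≤ 4 * n * K) (by positivity : (0:ℝ) ≤ n)]
    have hhipos : (0 : ℝ) < hi P := by
      have h1 : (lo P : ℝ) ≤ hi P := by exact_mod_cast hlohi
      linarith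
    have hfrac : (n : ℝ) / hi P * (pot K P + C - (A2 + C)) ≤ ww n := by
      have e : pot K P + C - (A2 + C) = pot K P - A2 := by ring
      rw [e]
      have h1 : (n : ℝ) / hi P * (pot K P - A2) ≤ n / hi P * (4 * K * ww n) := by
        apply mul_le_mul_of_nonneg_left hdiff (by positivity)
      refine h1.trans ?_
      rw [div_mul_eq_mul_div, div_le_iff₀ hhipos]
      nlinarith
    refine step_le_of_two hP _ (some t0) (some t1) hX0 hX1 hne (pot K P + C)
      (2 / 3 * (pot K P + C) + 1 / 3 * ((A1 + C) + n / t0.size * ((A1 + C) - (A1 + C))))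
      (2 / 3 * (pot K P + C) + 1 / 3 * ((A2 + C) + n / t1.size * ((pot K P + C) - (A2 + C))))
      (by linarith) ?_ ?_ ?_ ?_ ?_ ?_
    · rw [sub_self, mul_zero]; linarith
    · have : 0 ≤ (n : ℝ) / t1.size * ((pot K P + C) - (A2 + C)) :=
        mul_nonneg (by positivity) (by linarith)
      linarith
    · rw [sub_self, mul_zero, hs1']
      have hwdef : ww n = 3 * (n + 1) := rfl
      linarith
    · intro X hX hn0 hn1
      cases X with
      | none => have := lo_le hX; simp only [size] at this; omega
      | some t =>
        have hb := Ex_mem_le hK hP hN C hC t hX (pot K P + C) (pot K P + C) (by linarith) le_rfl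
          ?_ ?_
        · refine hb.trans (ENNReal.ofReal_le_ofReal ?_)
          rw [sub_self, mul_zero]; linarith
        · intro v hv _
          have h1 := del_size t v hv
          have h2 : t.size ≤ hi P := hP.size_le_hi hX
          have h3 : lo P ≤ t.size := lo_le hX
          rcases h3.lt_or_eq with h4 | h4
          · have := pot_same hK hP hN (t.del v) (by omega) (by omega)
            linarith
          · exfalso
            apply hn0
            -- two members of the same size are equal
            rcases le_total (fit (some t)) (fit (some t0)) with h5 | h5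
            · exact (hP.anti (some t0) hX0 (some t) hX ⟨h5, by
                show t0.size ≤ t.size; omega⟩).symm
            · exact hP.anti (some t) hX (some t0) hX0 ⟨h5, by
                show t.size ≤ t0.size; omega⟩
        · intro v hv _
          have h1 := del_size t v hv
          have h2 : t.size ≤ hi P := hP.size_le_hi hX
          have h3 : lo P ≤ t.size := lo_le hX
          rcases h3.lt_or_eq with h4 | h4
          · have := pot_same hK hP hN (t.del v) (by omega) (by omega)
            linarith
          · exfalso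
            apply hn0
            rcases le_total (fit (some t)) (fit (some t0)) with h5 | h5
            · exact (hP.anti (some t0) hX0 (some t) hX ⟨h5, by
                show t0.size ≤ t.size; omega⟩).symm
            · exact hP.anti (some t) hX (some t0) hX0 ⟨h5, by
                show t.size ≤ t0.size; omega⟩
    · refine Ex_mem_le hK hP hN C hC t0 hX0 (A1 + C) (A1 + C) (by linarith) le_rfl ?_ ?_
      · intro v hv _
        have h1 := del_size t0 v hv
        have := pot_lo hK hP hN (t0.del v) (by omega)
        linarith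
      · intro v hv _
        have h1 := del_size t0 v hv
        have := pot_lo hK hP hN (t0.del v) (by omega)
        linarith
    · refine Ex_mem_le hK hP hN C hC t1 hX1 (A2 + C) (pot K P + C) (by linarith) (by linarith) ?_ ?_
      · intro v hv hf
        have h1 := del_size t1 v hv
        have := pot_hi hK hP hN hlt (t1.del v) (by omega) (by rw [← hf1]; exact hf)
        linarith
      · intro v hv _
        have h1 := del_size t1 v hv
        have := pot_same hK hP hN (t1.del v) (by omega) (by omega)
        linarith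
  · obtain ⟨X, hX, hf, hsz⟩ := hP.card_one heq
    obtain ⟨t, rfl⟩ : ∃ t, X = some t := by
      cases X with
      | none => simp only [size] at hsz; omega
      | some t => exact ⟨t, rfl⟩
    have hsz' : t.size = lo P := hsz
    have hmem : some t ∈ P := by rw [hX]; exact Finset.mem_singleton_self _
    set A3 : ℝ := phi n K (lo P - 1) (lo P - 1) (top P) with hA3
    set A4 : ℝ := phi n K (lo P - 1) (hi P) (top P) with hA4
    have hA3n : 0 ≤ A3 := phi_nonneg _ _ _ _ (top_le_n P)
    have hA34 : A3 ≤ A4 := phi_mono_b (by omega)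
    have e3 : A3 = pot K P - 6 := by
      rw [hA3]
      unfold pot phi
      rw [← heq, Nat.sub_self, Nat.sub_self, hh_zero, hh_zero, hcast]
      ring
    have e4 : A4 - A3 ≤ 3 * K * ww n := by
      rw [hA3, hA4]
      unfold phi
      rw [Nat.sub_self, hh_zero]
      have h1 : hi P - (lo P - 1) = 1 := by omega
      rw [h1]
      have h2 := hh_one hK (lo P - 1 + hi P) (by omega)
      have h6 := mul_le_mul_of_nonneg_left h2 hw.le
      nlinarith
    have hfrac : (n : ℝ) / lo P * (A4 + C - (A3 + C)) ≤ 3 := by
      have e : A4 + C - (A3 + C) = A4 - A3 := by ring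
      rw [e]
      have h1 : (n : ℝ) / lo P * (A4 - A3) ≤ n / lo P * (3 * K * ww n) := by
        apply mul_le_mul_of_nonneg_left e4 (by positivity)
      refine h1.trans ?_
      rw [div_mul_eq_mul_div, div_le_iff₀ hlopos]
      have hwdef : ww n = 3 * (n + 1) := rfl
      rw [hwdef]
      nlinarith [mul_nonneg (mul_nonneg (by positivity : (0:ℝ) ≤ n) (by positivity : (0:ℝ) ≤ n + 1))
        (by positivity : (0:ℝ) ≤ K)]
    have hmain := Ex_mem_le hK hP hN C hC t hmem (A3 + C) (A4 + C) (by linarith) (by linarith)
      (by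
        intro v hv hf'
        have h1 := del_size t v hv
        have := pot_one hK hP hN heq (t.del v) (by omega) (by rw [← hf]; exact hf')
        linarith)
      (by
        intro v hv _
        have h1 := del_size t v hv
        have := pot_lo hK hP hN (t.del v) (by omega)
        linarith)
    have hR : 0 ≤ pot K P + C - 1 := by linarith
    have hfin : Ex (hvl (some t)) (fun Y => ENNReal.ofReal (pot K (update P Y) + C)) ≤
        ENNReal.ofReal (pot K P + C - 1) := by
      refine hmain.trans (ENNReal.ofReal_le_ofReal ?_)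
      rw [hsz']
      linarith
    have key : ∀ Q : Finset (Ind n), Q = {some t} →
        Ex (hvl (some t)) (fun Y => ENNReal.ofReal (pot K (update Q Y) + C)) ≤
          ENNReal.ofReal (pot K Q + C - 1) → 0 ≤ pot K Q + C - 1 →
        Ex (step Q) (fun Q => ENNReal.ofReal (pot K Q + C)) ≤
          ENNReal.ofReal (pot K Q + C - 1) := by
      intro Q hQ h1 h2
      subst hQ
      exact step_single (fun Q => ENNReal.ofReal (pot K Q + C)) (some t) _ h2 h1
    exact key P hX hfin hR

end Q231.Smo
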