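import Pool.Agent.Q231.Smo.Comb

namespace Q231.Smo

variable {n : ℕ}

/-- largest fitness in the population -/
def top (P : Finset (Ind n)) : ℕ := P.sup fit

/-- smallest size in the population -/
noncomputable def lo (P : Finset (Ind n)) : ℕ := sInf (size '' (P : Set (Ind n)))

/-- size of the fittest member -/
noncomputable def hi (P : Finset (Ind n)) : ℕ := sInf {s | ∃ X ∈ P, fit X = top P ∧ size X = s}

/-- levels `j` such that the objective vector `(j, j)` is not attained -/
def missing (P : Finset (Ind n)) : ℕ :=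
  ((Finset.range (n + 1)).filter (fun j => ∀ X ∈ P, ¬ (fit X = j ∧ size X = j))).card

/-- the population is a nonempty antichain -/
structure Inv (P : Finset (Ind n)) : Prop where
  ne : P.Nonempty
  anti : ∀ X ∈ P, ∀ Y ∈ P, WeakDom X Y → X = Y

theorem lo_le {P : Finset (Ind n)} {X : Ind n} (hX : X ∈ P) : lo P ≤ size X :=
  Nat.sInf_le ⟨X, hX, rfl⟩

theorem exists_lo {P : Finset (Ind n)} (h : P.Nonempty) : ∃ X ∈ P, size X = lo P := by
  obtain ⟨X0, h0⟩ := h
  have : (size '' (P : Set (Ind n))).Nonempty := ⟨_, X0, h0, rfl⟩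
  obtain ⟨X, hX, hs⟩ := Nat.sInf_mem this
  exact ⟨X, hX, hs⟩

theorem le_top {P : Finset (Ind n)} {X : Ind n} (hX : X ∈ P) : fit X ≤ top P :=
  Finset.le_sup hX

theorem exists_fit_top {P : Finset (Ind n)} (h : P.Nonempty) : ∃ X ∈ P, fit X = top P := by
  obtain ⟨X, hX, hs⟩ := Finset.exists_mem_eq_sup P h fit
  exact ⟨X, hX, hs.symm⟩

theorem exists_top {P : Finset (Ind n)} (h : P.Nonempty) :
    ∃ X ∈ P, fit X = top P ∧ size X = hi P := by
  obtain ⟨X0, h0, h1⟩ := exists_fit_top h
  have : {s | ∃ X ∈ P, fit X = top P ∧ size X = s}.Nonempty := ⟨_, X0, h0, h1, rfl⟩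
  exact Nat.sInf_mem this

theorem hi_le {P : Finset (Ind n)} {X : Ind n} (hX : X ∈ P) (h : fit X = top P) :
    hi P ≤ size X := Nat.sInf_le ⟨X, hX, h, rfl⟩

theorem top_le_n (P : Finset (Ind n)) : top P ≤ n := Finset.sup_le fun X _ => fit_le_n X

theorem Inv.size_le_hi {P : Finset (Ind n)} (h : Inv P) {X : Ind n} (hX : X ∈ P) :
    size X ≤ hi P := by
  obtain ⟨Z, hZ, h1, h2⟩ := exists_top h.ne
  by_contra hc
  push Not at hc
  have : Z = X := h.anti Z hZ X hX ⟨by rw [h1]; exact le_top hX, by rw [h2]; exact hc.le⟩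
  subst this
  omega

theorem Inv.lo_le_hi {P : Finset (Ind n)} (h : Inv P) : lo P ≤ hi P := by
  obtain ⟨Z, hZ, h1, h2⟩ := exists_top h.ne
  rw [← h2]; exact lo_le hZ

theorem Inv.card_le {P : Finset (Ind n)} (h : Inv P) : P.card ≤ n + 1 := by
  have hinj : Set.InjOn (fit : Ind n → ℕ) (P : Set (Ind n)) := by
    intro X hX Y hY hXY
    rcases le_total (size X) (size Y) with hs | hs
    · exact h.anti X hX Y hY ⟨hXY.ge, hs⟩
    · exact (h.anti Y hY X hX ⟨hXY.le, hs⟩).symm
  have := Finset.card_le_card_of_injOn (t := Finset.range (n + 1)) fit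
    (fun X _ => by have := fit_le_n X; simp only [Finset.coe_range, Set.mem_Iio]; omega) hinj
  simpa using this

theorem Inv.card_one {P : Finset (Ind n)} (h : Inv P) (he : lo P = hi P) :
    ∃ X, P = {X} ∧ fit X = top P ∧ size X = lo P := by
  obtain ⟨Z, hZ, h1, h2⟩ := exists_top h.ne
  refine ⟨Z, ?_, h1, by rw [h2, he]⟩
  rw [Finset.eq_singleton_iff_unique_mem]
  refine ⟨hZ, fun X hX => ?_⟩
  have hs := lo_le hX
  exact (h.anti Z hZ X hX ⟨by rw [h1]; exact le_top hX, by rw [h2, ← he]; exact hs⟩).symm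

theorem Inv.card_pos {P : Finset (Ind n)} (h : Inv P) : 0 < P.card := Finset.card_pos.2 h.ne

/-! ### the update -/

theorem update_rej {P : Finset (Ind n)} {Y : Ind n} (h : ∃ X ∈ P, StrictDom X Y) :
    update P Y = P := by simp only [update]; rw [if_pos h]

theorem update_acc {P : Finset (Ind n)} {Y : Ind n} (h : ¬ ∃ X ∈ P, StrictDom X Y) :
    update P Y = insert Y (P.filter fun X => ¬ WeakDom Y X) := by
  simp only [update]; rw [if_neg h]

theorem mem_update_cases {P : Finset (Ind n)} {Y Z : Ind n} (h : Z ∈ update P Y) :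
    Z ∈ P ∨ Z = Y := by
  by_cases hc : ∃ X ∈ P, StrictDom X Y
  · rw [update_rej hc] at h; left; exact h
  · rw [update_acc hc, Finset.mem_insert, Finset.mem_filter] at h
    rcases h with h | h
    · right; exact h
    · left; exact h.1

/-- every old member is weakly dominated by a new member, which is itself or the offspring -/
theorem exists_dom {P : Finset (Ind n)} (Y : Ind n) {X : Ind n} (hX : X ∈ P) :
    X ∈ update P Y ∨ (Y ∈ update P Y ∧ WeakDom Y X) := by
  by_cases hc : ∃ X ∈ P, StrictDom X Y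
  · rw [update_rej hc]; left; exact hX
  · rw [update_acc hc]
    by_cases hd : WeakDom Y X
    · right; exact ⟨Finset.mem_insert_self _ _, hd⟩
    · left; rw [Finset.mem_insert, Finset.mem_filter]; right; exact ⟨hX, hd⟩

theorem Inv.update {P : Finset (Ind n)} (h : Inv P) (Y : Ind n) : Inv (update P Y) := by
  by_cases hc : ∃ X ∈ P, StrictDom X Y
  · rw [update_rej hc]; exact h
  · rw [update_acc hc]
    refine ⟨⟨Y, Finset.mem_insert_self _ _⟩, ?_⟩
    intro A hA B hB hAB
    rw [Finset.mem_insert, Finset.mem_filter] at hA hB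
    rcases hA with hA | ⟨hA, hA'⟩
    · rcases hB with hB | ⟨hB, hB'⟩
      · rw [hA, hB]
      · rw [hA] at hAB; exact absurd hAB hB'
    · rcases hB with hB | ⟨hB, hB'⟩
      · subst hB
        exfalso
        apply hA'
        have hn : ¬ StrictDom A B := fun hh => hc ⟨A, hA, hh⟩
        unfold StrictDom at hn
        unfold WeakDom at hAB hn ⊢
        omega
      · exact h.anti A hA B hB hAB

theorem mem_update_of {P : Finset (Ind n)} {Y : Ind n}
    (h : ∀ X ∈ P, fit X < fit Y ∨ size Y < size X ∨ (fit X = fit Y ∧ size X = size Y)) :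
    Y ∈ update P Y := by
  have hc : ¬ ∃ X ∈ P, StrictDom X Y := by
    rintro ⟨X, hX, hXY⟩
    have := h X hX
    unfold StrictDom WeakDom at hXY
    omega
  rw [update_acc hc]
  exact Finset.mem_insert_self _ _

theorem lo_update_le {P : Finset (Ind n)} (h : P.Nonempty) (Y : Ind n) :
    lo (update P Y) ≤ lo P := by
  obtain ⟨X, hX, hs⟩ := exists_lo h
  rcases exists_dom Y hX with h1 | ⟨h1, h2⟩
  · rw [← hs]; exact lo_le h1
  · rw [← hs]; exact (lo_le h1).trans h2.2

theorem le_lo_update {P : Finset (Ind n)} (h : Inv P) (Y : Ind n) (c : ℕ) (h1 : c ≤ lo P)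
    (h2 : c ≤ size Y) : c ≤ lo (update P Y) := by
  obtain ⟨Z, hZ, hs⟩ := exists_lo (h.update Y).ne
  rw [← hs]
  rcases mem_update_cases hZ with h3 | h3
  · exact h1.trans (lo_le h3)
  · rw [h3]; exact h2

theorem lo_update_same {P : Finset (Ind n)} (h : Inv P) (Y : Ind n) (h2 : lo P ≤ size Y) :
    lo (update P Y) = lo P :=
  le_antisymm (lo_update_le h.ne Y) (le_lo_update h Y _ le_rfl h2)

theorem lo_update_lt {P : Finset (Ind n)} (h : Inv P) (Y : Ind n) (h2 : size Y < lo P) :
    lo (update P Y) = size Y := by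
  have hmem : Y ∈ update P Y := mem_update_of fun X hX => by
    have := lo_le hX; right; left; omega
  exact le_antisymm (lo_le hmem) (le_lo_update h Y _ h2.le le_rfl)

theorem top_le_update {P : Finset (Ind n)} (h : P.Nonempty) (Y : Ind n) :
    top P ≤ top (update P Y) := by
  obtain ⟨X, hX, hs⟩ := exists_fit_top h
  rcases exists_dom Y hX with h1 | ⟨h1, h2⟩
  · rw [← hs]; exact le_top h1
  · rw [← hs]; exact h2.1.trans (le_top h1)

theorem fit_of_top_ne {P : Finset (Ind n)} (h : Inv P) (Y : Ind n)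
    (hne : top (update P Y) ≠ top P) :
    top P < fit Y ∧ top (update P Y) = fit Y ∧ hi (update P Y) = size Y := by
  have h1 := top_le_update h.ne Y
  obtain ⟨Z, hZ, h2, h3⟩ := exists_top (h.update Y).ne
  rcases mem_update_cases hZ with h4 | h4
  · have := le_top h4; omega
  · subst h4
    exact ⟨by omega, h2.symm, h3.symm⟩

theorem hi_update_le {P : Finset (Ind n)} (h : P.Nonempty) (Y : Ind n)
    (he : top (update P Y) = top P) : hi (update P Y) ≤ hi P := by
  obtain ⟨X, hX, h1, h2⟩ := exists_top h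
  rcases exists_dom Y hX with h3 | ⟨h3, h4⟩
  · rw [← h2]; exact hi_le h3 (by rw [he]; exact h1)
  · rw [← h2]
    refine (hi_le h3 ?_).trans h4.2
    exact le_antisymm (le_top h3) (by rw [he, ← h1]; exact h4.1)

/-- an offspring as fit as the fittest member and smaller than it becomes the fittest member -/
theorem hi_update_top {P : Finset (Ind n)} (h : Inv P) (Y : Ind n) (h1 : top P ≤ fit Y)
    (h2 : size Y < hi P) : hi (update P Y) = size Y := by
  by_cases hne : top (update P Y) = top P
  · have hmem : Y ∈ update P Y := mem_update_of fun X hX => by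
      have h3 := le_top hX
      rcases h3.lt_or_eq with h4 | h4
      · left; omega
      · have := hi_le hX h4; right; left; omega
    have hfy : fit Y = top (update P Y) := le_antisymm (le_top hmem) (by rw [hne]; exact h1)
    refine le_antisymm (hi_le hmem hfy) ?_
    obtain ⟨Z, hZ, h3, h4⟩ := exists_top (h.update Y).ne
    rw [← h4]
    have := (h.update Y).anti Z hZ Y hmem ⟨by rw [h3, hfy], by rw [h4]; exact hi_le hmem hfy⟩
    rw [this]
  · exact (fit_of_top_ne h Y hne).2.2

theorem missing_update_le {P : Finset (Ind n)} (Y : Ind n) :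
    missing (update P Y) ≤ missing P := by
  apply Finset.card_le_card
  intro j hj
  rw [Finset.mem_filter] at hj ⊢
  refine ⟨hj.1, fun X hX ⟨h1, h2⟩ => ?_⟩
  rcases exists_dom Y hX with h3 | ⟨h3, h4⟩
  · exact hj.2 X h3 ⟨h1, h2⟩
  · have h5 := fit_le_size Y
    unfold WeakDom at h4
    exact hj.2 Y h3 ⟨by omega, by omega⟩

/-- an offspring attaining a missing level decreases `missing` -/
theorem missing_update_lt {P : Finset (Ind n)} (Y : Ind n) (hf : fit Y = size Y)
    (hm : ∀ X ∈ P, ¬ (fit X = fit Y ∧ size X = fit Y)) :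
    missing (update P Y) < missing P := by
  apply Finset.card_lt_card
  rw [Finset.ssubset_iff_of_subset]
  · refine ⟨fit Y, ?_, ?_⟩
    · rw [Finset.mem_filter, Finset.mem_range]
      exact ⟨by have := fit_le_n Y; omega, hm⟩
    · rw [Finset.mem_filter]
      rintro ⟨_, h2⟩
      refine h2 Y ?_ ⟨rfl, hf.symm⟩
      apply mem_update_of
      intro X hX
      have h3 := hm X hX
      have h4 := fit_le_size X
      omega
  · intro j hj
    rw [Finset.mem_filter] at hj ⊢
    refine ⟨hj.1, fun X hX ⟨h1, h2⟩ => ?_⟩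
    rcases exists_dom Y hX with h3 | ⟨h3, h4⟩
    · exact hj.2 X h3 ⟨h1, h2⟩
    · have h5 := fit_le_size Y
      unfold WeakDom at h4
      exact hj.2 Y h3 ⟨by omega, by omega⟩

theorem missing_le (P : Finset (Ind n)) : missing P ≤ n + 1 := by
  have := Finset.card_filter_le (Finset.range (n + 1))
    (fun j => ∀ X ∈ P, ¬ (fit X = j ∧ size X = j))
  simpa [missing] using this

theorem complete_of {P : Finset (Ind n)}
    (h : ∀ j ≤ n, ∃ X ∈ P, fit X = j ∧ size X = j) : Complete P := by
  intro X hX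
  obtain ⟨Y, hY, h1, h2⟩ := h (fit X) (fit_le_n X)
  refine ⟨Y, hY, h1, ?_⟩
  have h3 := fit_le_size X
  by_contra hne
  exact hX Y ⟨⟨h1.ge, by omega⟩, Or.inr (by omega)⟩

/-- if the empty tree is present and the population is not complete then there is a member of
shape `(j, j)` with `(j + 1, j + 1)` missing -/
theorem exists_step {P : Finset (Ind n)} (hP : Inv P) (h0 : lo P = 0) (hc : ¬ Complete P) :
    ∃ j, j < n ∧ (∃ X ∈ P, fit X = j ∧ size X = j) ∧
      ∀ X ∈ P, ¬ (fit X = j + 1 ∧ size X = j + 1) := by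
  by_contra hno
  push Not at hno
  apply hc
  apply complete_of
  intro j
  induction j with
  | zero =>
    intro _
    obtain ⟨X, hX, hs⟩ := exists_lo hP.ne
    have := fit_le_size X
    exact ⟨X, hX, by omega, by omega⟩
  | succ j ih =>
    intro hj
    obtain ⟨X, hX, h1, h2⟩ := ih (by omega)
    obtain ⟨Y, hY, h3, h4⟩ := hno j (by omega) ⟨X, hX, h1, h2⟩
    exact ⟨Y, hY, h3, h4⟩

end Q231.Smo
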